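import Mathlib

/-!
Classes of approximate `q`-th roots `Y ^ q ≡ e b ^ N` modulo the primes dividing `a`: there are at
most `4 q ^ (ω(a) + 1)` of them.
-/

set_option autoImplicit false

namespace Pool.Agent.Y411.PB

open Polynomial

/-- the `q`-th roots of an element of a field can be numbered by `Fin q` -/
theorem exists_number {F : Type*} [Field F] {q : ℕ} (hq : 0 < q) (v : F) :
    ∃ φ : F → Fin q, ∀ x y : F, x ^ q = v → y ^ q = v → φ x = φ y → x = y := by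
  classical
  set R : Finset F := (nthRoots q v).toFinset with hR
  have hc : R.card ≤ q := (Multiset.toFinset_card_le _).trans (card_nthRoots q v)
  have hm : ∀ x : F, x ^ q = v → x ∈ R := fun x hx => by
    rw [hR, Multiset.mem_toFinset, mem_nthRoots hq]; exact hx
  refine ⟨fun x => if h : x ∈ R then Fin.castLE hc (R.equivFin ⟨x, h⟩) else ⟨0, hq⟩, ?_⟩
  intro x y hx hy h
  simp only [dif_pos (hm x hx), dif_pos (hm y hy)] at h
  have h1 := Fin.castLE_injective hc h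
  have h2 := R.equivFin.injective h1
  exact congrArg Subtype.val h2

/-- classes modulo one prime -/
theorem exists_class_prime {p q b : ℕ} (hp : p.Prime) (hq : 0 < q) (hb : ¬ p ∣ b) (e : ℤ) :
    ∃ φ : ℕ → ℕ → Fin q, ∀ Y₁ N₁ Y₂ N₂ : ℕ, N₁ ≤ N₂ → q ∣ N₂ - N₁ →
      (p : ℤ) ∣ (Y₁ : ℤ) ^ q - e * b ^ N₁ → (p : ℤ) ∣ (Y₂ : ℤ) ^ q - e * b ^ N₂ →
      φ Y₁ N₁ = φ Y₂ N₂ → (p : ℤ) ∣ (Y₁ : ℤ) * b ^ ((N₂ - N₁) / q) - Y₂ := by
  classical
  have := Fact.mk hp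
  have hb0 : (b : ZMod p) ≠ 0 := by
    rw [Ne, ZMod.natCast_eq_zero_iff]; exact hb
  choose φ hφ using fun v : ZMod p => exists_number (q := q) hq v
  refine ⟨fun Y N => φ ((e : ZMod p) * (b : ZMod p) ^ (N % q)) ((Y : ZMod p) / (b : ZMod p) ^ (N / q)),
    ?_⟩
  intro Y₁ N₁ Y₂ N₂ hN ⟨t, ht⟩ h1 h2 h
  have hN2 : N₂ = N₁ + q * t := by omega
  have hdiv : (N₂ - N₁) / q = t := by rw [ht]; exact Nat.mul_div_cancel_left t hq
  have hmod : N₂ % q = N₁ % q := by rw [hN2]; exact Nat.add_mul_mod_self_left _ _ _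
  have hdv : N₂ / q = N₁ / q + t := by rw [hN2]; exact Nat.add_mul_div_left _ _ hq
  have key : ∀ Y N : ℕ, (p : ℤ) ∣ (Y : ℤ) ^ q - e * b ^ N →
      ((Y : ZMod p) / (b : ZMod p) ^ (N / q)) ^ q = (e : ZMod p) * (b : ZMod p) ^ (N % q) := by
    intro Y N hY
    have h3 : ((Y : ZMod p)) ^ q = (e : ZMod p) * (b : ZMod p) ^ N := by
      have h4 := (ZMod.intCast_zmod_eq_zero_iff_dvd _ p).2 hY
      push_cast at h4
      exact sub_eq_zero.1 h4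
    rw [div_pow, h3, ← pow_mul, div_eq_iff (pow_ne_zero _ hb0), mul_assoc, ← pow_add]
    congr 2
    have := Nat.mod_add_div N q
    rw [mul_comm (N / q) q]
    exact this.symm
  have h5 := key Y₂ N₂ h2
  rw [hmod] at h5
  simp only [hmod] at h
  have h6 := hφ _ _ _ (key Y₁ N₁ h1) h5 h
  rw [hdv, div_eq_div_iff (pow_ne_zero _ hb0) (pow_ne_zero _ hb0), pow_add] at h6
  have h7 : (Y₁ : ZMod p) * (b : ZMod p) ^ t = Y₂ := by
    have h8 : (b : ZMod p) ^ (N₁ / q) ≠ 0 := pow_ne_zero _ hb0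
    apply mul_right_cancel₀ h8
    rw [← h6]; ring
  rw [hdiv, ← ZMod.intCast_zmod_eq_zero_iff_dvd]
  push_cast
  rw [h7, sub_self]

/-- **classes**: the number of classes of approximate roots is `4 q ^ (ω(a) + 1)` -/
theorem exists_class {a b q : ℕ} (ha : a ≠ 0) (hab : Nat.Coprime a b) (hq : 0 < q) (e : ℤ) :
    ∃ f : ℕ → ℕ → (Fin q × Fin 4) × (a.primeFactors → Fin q), ∀ Y₁ N₁ Y₂ N₂ : ℕ, N₁ ≤ N₂ →
      (∀ p : ℕ, p.Prime → p ∣ a → (p : ℤ) ∣ (Y₁ : ℤ) ^ q - e * b ^ N₁) →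
      (∀ p : ℕ, p.Prime → p ∣ a → (p : ℤ) ∣ (Y₂ : ℤ) ^ q - e * b ^ N₂) →
      f Y₁ N₁ = f Y₂ N₂ → q ∣ N₂ - N₁ ∧
        (∀ p : ℕ, p.Prime → p ∣ a → (p : ℤ) ∣ (Y₁ : ℤ) * b ^ ((N₂ - N₁) / q) - Y₂) ∧
        (2 ∣ a → (4 : ℤ) ∣ (Y₁ : ℤ) * b ^ ((N₂ - N₁) / q) - Y₂) := by
  classical
  have hpb : ∀ p : a.primeFactors, ¬ (p : ℕ) ∣ b := by
    intro p hpb
    have h1 := Nat.prime_of_mem_primeFactors p.2
    have h2 := Nat.dvd_of_mem_primeFactors p.2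
    have h3 := Nat.dvd_gcd h2 hpb
    rw [hab] at h3
    exact h1.one_lt.ne' (Nat.dvd_one.1 h3)
  choose φ hφ using fun p : a.primeFactors =>
    exists_class_prime (Nat.prime_of_mem_primeFactors p.2) hq (hpb p) e
  refine ⟨fun Y N => ((⟨N % q, Nat.mod_lt _ hq⟩, ⟨(Y * b ^ (N / q)) % 4, Nat.mod_lt _ (by norm_num)⟩),
    fun p => φ p Y N), ?_⟩
  intro Y₁ N₁ Y₂ N₂ hN h1 h2 h
  rw [Prod.mk.injEq, Prod.mk.injEq, Fin.mk.injEq, Fin.mk.injEq] at h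
  obtain ⟨⟨hr, h4⟩, hc⟩ := h
  have hd : q ∣ N₂ - N₁ := (Nat.modEq_iff_dvd' hN).1 hr
  refine ⟨hd, ?_, ?_⟩
  · intro p hp hpa
    have hmem : p ∈ a.primeFactors := Nat.mem_primeFactors.2 ⟨hp, hpa, ha⟩
    exact hφ ⟨p, hmem⟩ Y₁ N₁ Y₂ N₂ hN hd (h1 p hp hpa) (h2 p hp hpa) (congrFun hc ⟨p, hmem⟩)
  · intro h2a
    obtain ⟨t, ht⟩ := hd
    have hN2 : N₂ = N₁ + q * t := by omega
    have hdiv : (N₂ - N₁) / q = t := by rw [ht]; exact Nat.mul_div_cancel_left t hq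
    have hdv : N₂ / q = N₁ / q + t := by rw [hN2]; exact Nat.add_mul_div_left _ _ hq
    have hb2 : ¬ 2 ∣ b := by
      intro h2b
      have h3 := Nat.dvd_gcd h2a h2b
      rw [hab] at h3
      omega
    have hsq : b ^ 2 ≡ 1 [MOD 4] := by
      have h3 : b % 4 = 1 ∨ b % 4 = 3 := by omega
      rcases h3 with h3 | h3 <;> · rw [Nat.ModEq, Nat.pow_mod, h3]
    have h5 : Y₁ * b ^ (N₁ / q) ≡ Y₂ * b ^ (N₁ / q + t) [MOD 4] := by
      rw [Nat.ModEq, ← hdv]; exact h4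
    have h6 := h5.mul_right (b ^ (N₁ / q + t))
    have e1 : Y₁ * b ^ (N₁ / q) * b ^ (N₁ / q + t) = Y₁ * b ^ t * (b ^ 2) ^ (N₁ / q) := by
      rw [← pow_mul, pow_add, two_mul, pow_add]; ring
    have e2 : Y₂ * b ^ (N₁ / q + t) * b ^ (N₁ / q + t) = Y₂ * (b ^ 2) ^ (N₁ / q + t) := by
      rw [← pow_mul, two_mul, pow_add _ (N₁ / q + t)]; ring
    rw [e1, e2] at h6
    have h7 : Y₁ * b ^ t * (b ^ 2) ^ (N₁ / q) ≡ Y₁ * b ^ t * 1 [MOD 4] := by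
      apply Nat.ModEq.mul_left
      have := hsq.pow (N₁ / q)
      rwa [one_pow] at this
    have h8 : Y₂ * (b ^ 2) ^ (N₁ / q + t) ≡ Y₂ * 1 [MOD 4] := by
      apply Nat.ModEq.mul_left
      have := hsq.pow (N₁ / q + t)
      rwa [one_pow] at this
    have h9 : Y₁ * b ^ t ≡ Y₂ [MOD 4] := by
      have := (h7.symm.trans h6).trans h8
      rwa [mul_one, mul_one] at this
    rw [hdiv]
    have h10 := (Nat.modEq_iff_dvd.1 h9.symm)
    push_cast at h10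
    exact h10

end Pool.Agent.Y411.PB
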