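import Mathlib

/-!
Two coprime bases `a`, `b`: the congruence gap principle.  If `Y₁ ^ q ≡ e b ^ N₁` and
`Y₂ ^ q ≡ e b ^ N₂` modulo `a ^ M`, `N₂ = N₁ + q t` and `Y₁ b ^ t ≡ Y₂` modulo every prime factor of
`a` (and modulo `4` if `a` is even), then `a ^ M` divides `q (Y₁ b ^ t - Y₂)`.
-/

set_option autoImplicit false

namespace Pool.Agent.Y411.PB

/-- lifting the exponent, for prime exponents -/
theorem lte {p q k : ℕ} (hp : p.Prime) (hq : q.Prime) {x y : ℤ} (hd : (p : ℤ) ∣ x - y)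
    (hx : ¬ (p : ℤ) ∣ x) (h4 : p = 2 → (4 : ℤ) ∣ x - y) (h : (p : ℤ) ^ k ∣ x ^ q - y ^ q) :
    (p : ℤ) ^ k ∣ q * (x - y) := by
  have hpi : Prime (p : ℤ) := Nat.prime_iff_prime_int.1 hp
  by_cases hpq : (p : ℤ) ∣ (q : ℤ)
  · have hpq' : p = q := by
      have h1 : p ∣ q := by exact_mod_cast hpq
      exact (Nat.prime_dvd_prime_iff_eq hp hq).1 h1
    rw [pow_dvd_iff_le_emultiplicity] at h ⊢
    rw [emultiplicity_mul hpi]
    rcases hp.eq_two_or_odd' with h2 | h2
    · have e := Int.two_pow_sub_pow' (x := x) (y := y) q (h4 h2) (by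
        rw [h2] at hx; exact_mod_cast hx)
      subst h2
      push_cast at h ⊢
      rw [e] at h
      rw [add_comm]
      exact h
    · have e := Int.emultiplicity_pow_sub_pow hp h2 hd hx q
      rw [e, add_comm] at h
      rw [Int.natCast_emultiplicity]
      exact h
  · have e := emultiplicity_pow_sub_pow_of_prime hpi hd hx (n := q) (by exact_mod_cast hpq)
    have h1 : (p : ℤ) ^ k ∣ x - y := by
      rw [pow_dvd_iff_le_emultiplicity] at h ⊢
      rw [← e]; exact h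
    exact dvd_mul_of_dvd_right h1 _

/-- two approximate `q`-th roots in the same class are congruent modulo a high power -/
theorem close {a M q : ℕ} (hq : q.Prime) {x y : ℤ} (hcop : IsCoprime x (a : ℤ))
    (hcl : ∀ p : ℕ, p.Prime → p ∣ a → (p : ℤ) ∣ x - y) (h4 : 2 ∣ a → (4 : ℤ) ∣ x - y)
    (h : (a : ℤ) ^ M ∣ x ^ q - y ^ q) : (a : ℤ) ^ M ∣ q * (x - y) := by
  have key : a ^ M ∣ ((q : ℤ) * (x - y)).natAbs := by
    rw [Nat.dvd_iff_prime_pow_dvd_dvd]
    intro p k hp hk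
    rcases Nat.eq_zero_or_pos k with hk0 | hk0
    · rw [hk0, pow_zero]; exact one_dvd _
    have hpa : p ∣ a := hp.dvd_of_dvd_pow ((dvd_pow_self p hk0.ne').trans hk)
    have hk' : ((p : ℤ)) ^ k ∣ (a : ℤ) ^ M := by exact_mod_cast hk
    have h1 := lte hp hq (hcl p hp hpa) (k := k) (by
      intro hpx
      have h2 : IsCoprime (p : ℤ) (a : ℤ) := hcop.of_isCoprime_of_dvd_left hpx
      have h3 : IsUnit (p : ℤ) := h2.isUnit_of_dvd' dvd_rfl (by exact_mod_cast hpa)
      rw [Int.isUnit_iff] at h3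
      have := hp.two_le
      omega) (by
      intro h2
      exact h4 (h2 ▸ hpa)) (hk'.trans h)
    have h3 := Int.natAbs_dvd_natAbs.2 h1
    rwa [Int.natAbs_pow, Int.natAbs_natCast] at h3
  have h2 : ((a ^ M : ℕ) : ℤ) ∣ (q : ℤ) * (x - y) := Int.natCast_dvd.2 key
  exact_mod_cast h2

/-- a high power of `a` divides the difference of two small numbers, which are therefore equal -/
theorem eq_of_close {a M q : ℕ} {x y : ℕ} (h : (a : ℤ) ^ M ∣ q * ((x : ℤ) - y))
    (hx0 : 0 < x) (hy0 : 0 < y) (hx : q * x ≤ a ^ M) (hy : q * y ≤ a ^ M) (hq : 0 < q) : x = y := by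
  by_contra hne
  have h1 : ((a ^ M : ℕ) : ℤ) ∣ ((q : ℤ) * ((x : ℤ) - y)) := by exact_mod_cast h
  have h0 : ((q : ℤ) * ((x : ℤ) - y)) ≠ 0 := by
    apply mul_ne_zero (by exact_mod_cast hq.ne')
    intro h2
    apply hne
    have : (x : ℤ) = y := by linarith
    exact_mod_cast this
  have h2 := Int.le_of_dvd (abs_pos.2 h0) ((dvd_abs _ _).2 h1)
  rw [abs_mul, abs_of_nonneg (by positivity : (0 : ℤ) ≤ q)] at h2
  have h3 : |(x : ℤ) - y| < max (x : ℤ) (y : ℤ) := by
    rw [abs_lt]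
    have hx1 : (0 : ℤ) < x := by exact_mod_cast hx0
    have hy1 : (0 : ℤ) < y := by exact_mod_cast hy0
    have := le_max_left (x : ℤ) y
    have := le_max_right (x : ℤ) y
    constructor <;> omega
  have hqz : (0 : ℤ) < q := by exact_mod_cast hq
  have h4 : (q : ℤ) * |(x : ℤ) - y| < q * max (x : ℤ) y := mul_lt_mul_of_pos_left h3 hqz
  have h5 : (q : ℤ) * max (x : ℤ) y ≤ a ^ M := by
    rcases le_total (x : ℤ) y with h6 | h6
    · rw [max_eq_right h6]; exact_mod_cast hy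
    · rw [max_eq_left h6]; exact_mod_cast hx
  push_cast at h2
  linarith

end Pool.Agent.Y411.PB
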