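import Mathlib
import Pool.Agent.Y411.PB.Gap
import Pool.Agent.Y411.PB.Cls

/-!
Products of several solutions: two sets of `w` solutions in the same class have the same product,
and this is impossible for different sets if the exponents of one base are distinct.
-/

set_option autoImplicit false

namespace Pool.Agent.Y411.PB

open Finset

/-- small perturbations of distinct orders of products -/
theorem prod_ne_aux {ι : Type*} [DecidableEq ι] {A B : Finset ι} {c : ℤ} (hcz : c ≠ 0)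
    (hc : ¬ IsUnit c)
    {U ε : ι → ℤ} {k : ι → ℕ} (hdis : Disjoint A B)
    (hU : ∀ x ∈ A ∪ B, IsCoprime (U x) c) (hε : ∀ x ∈ A ∪ B, IsCoprime (ε x) c)
    (hpU : ∏ x ∈ A, U x = ∏ x ∈ B, U x)
    (hp : ∏ x ∈ A, (U x + ε x * c ^ k x) = ∏ x ∈ B, (U x + ε x * c ^ k x))
    {x₀ : ι} (hx₀ : x₀ ∈ A) (hmin : ∀ x ∈ A ∪ B, x ≠ x₀ → k x₀ < k x) : False := by
  have key : ∀ (T : Finset ι), (∀ x ∈ T, k x₀ < k x) →
      c ^ (k x₀ + 1) ∣ ∏ x ∈ T, (U x + ε x * c ^ k x) - ∏ x ∈ T, U x := by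
    intro T
    induction T using Finset.induction_on with
    | empty => intro _; simp
    | insert a s ha ih =>
      intro hT
      rw [prod_insert ha, prod_insert ha]
      have h1 := ih (fun x hx => hT x (mem_insert_of_mem hx))
      have h2 : c ^ (k x₀ + 1) ∣ ε a * c ^ k a :=
        dvd_mul_of_dvd_right (pow_dvd_pow c (hT a (mem_insert_self a s))) _
      have e : (U a + ε a * c ^ k a) * ∏ x ∈ s, (U x + ε x * c ^ k x) - U a * ∏ x ∈ s, U x
          = U a * (∏ x ∈ s, (U x + ε x * c ^ k x) - ∏ x ∈ s, U x) +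
            ε a * c ^ k a * ∏ x ∈ s, (U x + ε x * c ^ k x) := by ring
      rw [e]
      exact dvd_add (dvd_mul_of_dvd_right h1 _) (dvd_mul_of_dvd_left h2 _)
  have hA := key (A.erase x₀) (fun x hx => hmin x (mem_union_left _ (mem_of_mem_erase hx))
    (ne_of_mem_erase hx))
  have hB := key B (fun x hx => hmin x (mem_union_right _ hx) (fun h => by
    rw [h] at hx
    exact disjoint_left.1 hdis hx₀ hx))
  rw [← mul_prod_erase A _ hx₀] at hp hpU
  obtain ⟨u, hu⟩ := hA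
  obtain ⟨v, hv⟩ := hB
  set P := ∏ x ∈ A.erase x₀, U x with hP
  have h1 : ε x₀ * c ^ k x₀ * P = c ^ (k x₀ + 1) * (v - (U x₀ + ε x₀ * c ^ k x₀) * u) := by
    have e1 : ∏ x ∈ A.erase x₀, (U x + ε x * c ^ k x) = P + c ^ (k x₀ + 1) * u := by
      linear_combination hu
    have e2 : ∏ x ∈ B, (U x + ε x * c ^ k x) = ∏ x ∈ B, U x + c ^ (k x₀ + 1) * v := by
      linear_combination hv
    rw [e1, e2, ← hpU] at hp
    linear_combination hp
  have hc0 : c ^ k x₀ ≠ 0 := pow_ne_zero _ hcz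
  have h2 : ε x₀ * P = c * (v - (U x₀ + ε x₀ * c ^ k x₀) * u) := by
    apply mul_left_cancel₀ hc0
    rw [pow_succ] at h1
    linear_combination h1
  have h3 : IsCoprime (ε x₀ * P) c := by
    apply IsCoprime.mul_left (hε x₀ (mem_union_left _ hx₀))
    rw [hP]
    exact IsCoprime.prod_left fun x hx => hU x (mem_union_left _ (mem_of_mem_erase hx))
  exact hc (h3.isUnit_of_dvd' ⟨_, h2⟩ dvd_rfl)

theorem cancel_inter {ι : Type*} [DecidableEq ι] {A B : Finset ι} {f : ι → ℤ}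
    (h0 : ∀ x ∈ A ∪ B, f x ≠ 0) (h : ∏ x ∈ A, f x = ∏ x ∈ B, f x) :
    ∏ x ∈ A \ B, f x = ∏ x ∈ B \ A, f x := by
  rw [← prod_inter_mul_prod_sdiff A B, ← prod_inter_mul_prod_sdiff B A, inter_comm B A] at h
  exact mul_left_cancel₀ (prod_ne_zero_iff.2 fun x hx =>
    h0 x (mem_union_left _ (mem_inter.1 hx).1)) h

/-- different sets with distinct orders have different products -/
theorem prod_ne {ι : Type*} [DecidableEq ι] {A B : Finset ι} (hAB : A ≠ B) {c : ℤ} (hcz : c ≠ 0)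
    (hc : ¬ IsUnit c) {U ε : ι → ℤ} {k : ι → ℕ} (hk : Set.InjOn k (A ∪ B : Finset ι))
    (hU : ∀ x ∈ A ∪ B, IsCoprime (U x) c) (hε : ∀ x ∈ A ∪ B, IsCoprime (ε x) c)
    (hs : ∀ x ∈ A ∪ B, U x + ε x * c ^ k x ≠ 0)
    (hpU : ∏ x ∈ A, U x = ∏ x ∈ B, U x)
    (hp : ∏ x ∈ A, (U x + ε x * c ^ k x) = ∏ x ∈ B, (U x + ε x * c ^ k x)) : False := by
  have hU0 : ∀ x ∈ A ∪ B, U x ≠ 0 := by
    intro x hx h0
    have := hU x hx
    rw [h0, isCoprime_zero_left] at this
    exact hc this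
  have h1 := cancel_inter hU0 hpU
  have h2 := cancel_inter hs hp
  have hne : ((A \ B) ∪ (B \ A)).Nonempty := by
    rw [nonempty_iff_ne_empty]
    intro h
    rw [union_eq_empty, sdiff_eq_empty_iff_subset, sdiff_eq_empty_iff_subset] at h
    exact hAB (Subset.antisymm h.1 h.2)
  have hsub : ∀ x ∈ (A \ B) ∪ (B \ A), x ∈ A ∪ B := by
    intro x hx
    rcases mem_union.1 hx with hx | hx
    · exact mem_union_left _ (mem_sdiff.1 hx).1
    · exact mem_union_right _ (mem_sdiff.1 hx).1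
  obtain ⟨x₀, hx₀, hmin⟩ := exists_min_image _ k hne
  have hmin' : ∀ x ∈ (A \ B) ∪ (B \ A), x ≠ x₀ → k x₀ < k x := by
    intro x hx hxx
    refine lt_of_le_of_ne (hmin x hx) ?_
    intro h
    exact hxx (hk (mem_coe.2 (hsub x hx)) (mem_coe.2 (hsub x₀ hx₀)) h.symm)
  have hdis : Disjoint (A \ B) (B \ A) := disjoint_sdiff_sdiff
  rcases mem_union.1 hx₀ with h3 | h3
  · exact prod_ne_aux hcz hc hdis (fun x hx => hU x (hsub x hx)) (fun x hx => hε x (hsub x hx))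
      h1 h2 h3 hmin'
  · refine prod_ne_aux hcz hc hdis.symm (fun x hx => hU x (hsub x ?_)) (fun x hx => hε x (hsub x ?_))
      h1.symm h2.symm h3 (fun x hx => hmin' x ?_)
    all_goals rw [union_comm]; exact hx

/-- size of a product -/
theorem size_bound {a M q w x : ℕ} (hw : 2 * w ≤ q) (ha : 1 ≤ a) (hq : 0 < q)
    (hbig : 4 * q ^ 4 ≤ a ^ M) (hx : x ^ (4 * q) ≤ (16 * a ^ (6 * M)) ^ w) : q * x ≤ a ^ M := by
  have h1 : (q * x) ^ (8 * q) ≤ (a ^ M) ^ (8 * q) := by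
    have h16 : 1 ≤ 16 * a ^ (6 * M) := by
      have : 1 ≤ a ^ (6 * M) := Nat.one_le_pow _ _ ha
      omega
    calc (q * x) ^ (8 * q) = (q ^ 8) ^ q * (x ^ (4 * q)) ^ 2 := by
          rw [mul_pow, ← pow_mul, ← pow_mul]; congr 2; ring
      _ ≤ (q ^ 8) ^ q * ((16 * a ^ (6 * M)) ^ w) ^ 2 :=
          Nat.mul_le_mul_left _ (Nat.pow_le_pow_left hx 2)
      _ = (q ^ 8) ^ q * (16 * a ^ (6 * M)) ^ (2 * w) := by
          rw [← pow_mul (16 * a ^ (6 * M)) w 2, mul_comm w 2]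
      _ ≤ (q ^ 8) ^ q * (16 * a ^ (6 * M)) ^ q :=
          Nat.mul_le_mul_left _ (Nat.pow_le_pow_right h16 hw)
      _ = ((4 * q ^ 4) ^ 2 * a ^ (6 * M)) ^ q := by rw [← mul_pow]; congr 1; ring
      _ ≤ ((a ^ M) ^ 2 * a ^ (6 * M)) ^ q := by
          apply Nat.pow_le_pow_left
          exact Nat.mul_le_mul_right _ (Nat.pow_le_pow_left hbig 2)
      _ = (a ^ M) ^ (8 * q) := by
          rw [← pow_mul, ← pow_mul, ← pow_add, ← pow_mul]; congr 1; ring
  exact (Nat.pow_le_pow_iff_left (by omega)).1 h1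

/-- the number of solutions from the number of classes -/
theorem card_bound {r w q s : ℕ} (hw1 : 1 ≤ w) (hq : q ≤ 2 * w + 1)
    (h : r.choose w ≤ 4 * q ^ (s + 1)) : r ≤ 5 * w * 3 ^ (s + 1) := by
  have h3 : q ≤ 3 ^ w := by
    have h4 : ∀ w : ℕ, 1 ≤ w → 2 * w + 1 ≤ 3 ^ w := by
      intro w hw
      induction w, hw using Nat.le_induction with
      | base => norm_num
      | succ n hn ih => rw [pow_succ]; omega
    exact hq.trans (h4 w hw1)
  have h5 : ((r + 1 - w : ℕ) : ℝ) ^ w / (w.factorial : ℝ) ≤ (r.choose w : ℝ) :=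
    Nat.pow_le_choose (α := ℝ) w r
  have hf0 : (0 : ℝ) < w.factorial := by exact_mod_cast Nat.factorial_pos w
  rw [div_le_iff₀ hf0] at h5
  have h6 : ((r + 1 - w : ℕ) : ℝ) ^ w ≤ ((4 * w * 3 ^ (s + 1) : ℕ) : ℝ) ^ w := by
    calc ((r + 1 - w : ℕ) : ℝ) ^ w ≤ (r.choose w : ℝ) * w.factorial := h5
      _ ≤ ((4 * q ^ (s + 1) : ℕ) : ℝ) * ((w ^ w : ℕ) : ℝ) := by
          apply mul_le_mul _ _ hf0.le (by positivity)
          · exact_mod_cast h
          · exact_mod_cast Nat.factorial_le_pow w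
      _ ≤ (((4 ^ w * (3 ^ w) ^ (s + 1) : ℕ)) : ℝ) * ((w ^ w : ℕ) : ℝ) := by
          apply mul_le_mul_of_nonneg_right _ (by positivity)
          have h7 : 4 * q ^ (s + 1) ≤ 4 ^ w * (3 ^ w) ^ (s + 1) :=
            Nat.mul_le_mul (by
              calc 4 = 4 ^ 1 := by norm_num
                _ ≤ 4 ^ w := Nat.pow_le_pow_right (by norm_num) hw1) (Nat.pow_le_pow_left h3 _)
          exact_mod_cast h7
      _ = ((4 * w * 3 ^ (s + 1) : ℕ) : ℝ) ^ w := by
          push_cast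
          rw [← pow_mul, mul_comm w (s + 1), pow_mul, ← mul_pow, ← mul_pow]
          congr 1; ring
  have h8 : r + 1 - w ≤ 4 * w * 3 ^ (s + 1) := by
    have := (pow_le_pow_iff_left₀ (by positivity) (by positivity) (by omega : w ≠ 0)).1 h6
    exact_mod_cast this
  have h9 : w ≤ w * 3 ^ (s + 1) := Nat.le_mul_of_pos_right _ (by positivity)
  have h10 : 5 * w * 3 ^ (s + 1) = 4 * w * 3 ^ (s + 1) + w * 3 ^ (s + 1) := by ring
  omega

end Pool.Agent.Y411.PB
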