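import Mathlib
import Pool.Agent.Y411.PB.Sets

/-!
The number of solutions of `y ^ q = e₁ a ^ m + e₂ b ^ n` in one block of exponents.
-/

set_option autoImplicit false

namespace Pool.Agent.Y411.PB

open Finset

theorem dvd_prod_sub {ι : Type*} [DecidableEq ι] {c : ℤ} {f g : ι → ℤ} (A : Finset ι)
    (h : ∀ x ∈ A, c ∣ f x - g x) : c ∣ ∏ x ∈ A, f x - ∏ x ∈ A, g x := by
  induction A using Finset.induction_on with
  | empty => simp
  | insert a s ha ih =>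
    rw [prod_insert ha, prod_insert ha]
    have e : f a * ∏ x ∈ s, f x - g a * ∏ x ∈ s, g x
        = f a * (∏ x ∈ s, f x - ∏ x ∈ s, g x) + (f a - g a) * ∏ x ∈ s, g x := by ring
    rw [e]
    exact dvd_add (dvd_mul_of_dvd_right (ih fun x hx => h x (mem_insert_of_mem hx)) _)
      (dvd_mul_of_dvd_left (h a (mem_insert_self a s)) _)

/-- a finite set of solutions in one block -/
structure Block (a b q : ℕ) (e₁ e₂ : ℤ) (G : Finset (ℕ × ℕ)) (y : ℕ × ℕ → ℕ) (M n₀ D : ℕ) :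
    Prop where
  pos : ∀ x ∈ G, 0 < y x
  eq : ∀ x ∈ G, (y x : ℤ) ^ q = e₁ * (a : ℤ) ^ x.1 + e₂ * (b : ℤ) ^ x.2
  one : ∀ x ∈ G, 1 ≤ x.1 ∧ 1 ≤ x.2
  le : ∀ x ∈ G, b ^ x.2 ≤ a ^ x.1
  lo : ∀ x ∈ G, M ≤ x.1
  hi : ∀ x ∈ G, 4 * x.1 ≤ 5 * M
  nlo : ∀ x ∈ G, n₀ ≤ x.2
  nhi : ∀ x ∈ G, x.2 ≤ n₀ + D
  hD : b ^ (4 * D) ≤ a ^ M
  big : 4 * q ^ 4 ≤ a ^ M

section

variable {a b q : ℕ} {e₁ e₂ : ℤ} {G : Finset (ℕ × ℕ)} {y : ℕ × ℕ → ℕ} {M n₀ D : ℕ}

/-- products of solutions are approximate roots -/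
theorem Block.approx (h : Block a b q e₁ e₂ G y M n₀ D) {A : Finset (ℕ × ℕ)} (hA : A ⊆ G) :
    (a : ℤ) ^ M ∣ ((∏ x ∈ A, y x : ℕ) : ℤ) ^ q - e₂ ^ A.card * (b : ℤ) ^ (∑ x ∈ A, x.2) := by
  have h1 : ((∏ x ∈ A, y x : ℕ) : ℤ) ^ q = ∏ x ∈ A, (y x : ℤ) ^ q := by
    rw [Nat.cast_prod, ← prod_pow]
  have h2 : e₂ ^ A.card * (b : ℤ) ^ (∑ x ∈ A, x.2) = ∏ x ∈ A, (e₂ * (b : ℤ) ^ x.2) := by
    rw [prod_mul_distrib, prod_const, prod_pow_eq_pow_sum]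
  rw [h1, h2]
  apply dvd_prod_sub
  intro x hx
  rw [h.eq x (hA hx)]
  have : (a : ℤ) ^ M ∣ (a : ℤ) ^ x.1 := pow_dvd_pow _ (h.lo x (hA hx))
  have e : e₁ * (a : ℤ) ^ x.1 + e₂ * (b : ℤ) ^ x.2 - e₂ * (b : ℤ) ^ x.2 = e₁ * (a : ℤ) ^ x.1 := by
    ring
  rw [e]
  exact dvd_mul_of_dvd_right this _

theorem sign_abs {e : ℤ} (he : e = 1 ∨ e = -1) (x : ℤ) : e * x ≤ |x| := by
  rcases he with rfl | rfl
  · rw [one_mul]; exact le_abs_self x
  · rw [neg_one_mul]; exact neg_le_abs x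

theorem Block.size (h : Block a b q e₁ e₂ G y M n₀ D) (he₁ : e₁ = 1 ∨ e₁ = -1)
    (he₂ : e₂ = 1 ∨ e₂ = -1) (ha : 1 ≤ a) {x : ℕ × ℕ} (hx : x ∈ G) :
    y x ^ (4 * q) ≤ 16 * a ^ (5 * M) := by
  have h1 : (y x : ℤ) ^ q ≤ 2 * (a : ℤ) ^ x.1 := by
    rw [h.eq x hx]
    have h2 := sign_abs he₁ ((a : ℤ) ^ x.1)
    have h3 := sign_abs he₂ ((b : ℤ) ^ x.2)
    rw [abs_of_nonneg (by positivity)] at h2 h3
    have h4 : (b : ℤ) ^ x.2 ≤ (a : ℤ) ^ x.1 := by exact_mod_cast h.le x hx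
    linarith
  have h5 : y x ^ q ≤ 2 * a ^ x.1 := by exact_mod_cast h1
  calc y x ^ (4 * q) = (y x ^ q) ^ 4 := by rw [← pow_mul, mul_comm]
    _ ≤ (2 * a ^ x.1) ^ 4 := Nat.pow_le_pow_left h5 4
    _ = 16 * a ^ (4 * x.1) := by rw [mul_pow, ← pow_mul, mul_comm x.1 4]; norm_num
    _ ≤ 16 * a ^ (5 * M) := Nat.mul_le_mul_left _ (Nat.pow_le_pow_right ha (h.hi x hx))

theorem Block.coprime_b (h : Block a b q e₁ e₂ G y M n₀ D) (hab : Nat.Coprime a b)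
    (he₁ : e₁ = 1 ∨ e₁ = -1) (hq : 0 < q) {x : ℕ × ℕ} (hx : x ∈ G) : Nat.Coprime (y x) b := by
  have h1 : IsCoprime ((y x : ℤ) ^ q) (b : ℤ) := by
    rw [h.eq x hx]
    obtain ⟨n, hn⟩ : ∃ n, x.2 = n + 1 := ⟨x.2 - 1, by have := (h.one x hx).2; omega⟩
    rw [hn, pow_succ, ← mul_assoc]
    have h2 : IsCoprime (e₁ * (a : ℤ) ^ x.1) (b : ℤ) := by
      apply IsCoprime.mul_left
      · rcases he₁ with rfl | rfl
        · exact isCoprime_one_left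
        · exact isCoprime_one_left.neg_left
      · exact (Nat.isCoprime_iff_coprime.2 hab).pow_left
    have := IsCoprime.add_mul_right_left h2 (e₂ * (b : ℤ) ^ n)
    exact this
  exact Nat.isCoprime_iff_coprime.1 ((IsCoprime.pow_left_iff hq).1 h1)

theorem Block.coprime_a (h : Block a b q e₁ e₂ G y M n₀ D) (hab : Nat.Coprime a b)
    (he₂ : e₂ = 1 ∨ e₂ = -1) (hq : 0 < q) {x : ℕ × ℕ} (hx : x ∈ G) : Nat.Coprime (y x) a := by
  have h1 : IsCoprime ((y x : ℤ) ^ q) (a : ℤ) := by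
    rw [h.eq x hx]
    obtain ⟨n, hn⟩ : ∃ n, x.1 = n + 1 := ⟨x.1 - 1, by have := (h.one x hx).1; omega⟩
    rw [hn, pow_succ, ← mul_assoc, add_comm]
    have h2 : IsCoprime (e₂ * (b : ℤ) ^ x.2) (a : ℤ) := by
      apply IsCoprime.mul_left
      · rcases he₂ with rfl | rfl
        · exact isCoprime_one_left
        · exact isCoprime_one_left.neg_left
      · exact (Nat.isCoprime_iff_coprime.2 hab.symm).pow_left
    have := IsCoprime.add_mul_right_left h2 (e₁ * (a : ℤ) ^ n)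
    exact this
  exact Nat.isCoprime_iff_coprime.1 ((IsCoprime.pow_left_iff hq).1 h1)

/-- **merging**: sets of solutions in the same class have the same product -/
theorem Block.merge (h : Block a b q e₁ e₂ G y M n₀ D) (ha : 2 ≤ a) (hb : 2 ≤ b)
    (hab : Nat.Coprime a b) (hq : q.Prime)
    (he₁ : e₁ = 1 ∨ e₁ = -1) (he₂ : e₂ = 1 ∨ e₂ = -1) {w : ℕ} (hw : 2 * w ≤ q)
    {f : ℕ → ℕ → (Fin q × Fin 4) × (a.primeFactors → Fin q)}
    (hf : ∀ Y₁ N₁ Y₂ N₂ : ℕ, N₁ ≤ N₂ →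
      (∀ p : ℕ, p.Prime → p ∣ a → (p : ℤ) ∣ (Y₁ : ℤ) ^ q - e₂ ^ w * b ^ N₁) →
      (∀ p : ℕ, p.Prime → p ∣ a → (p : ℤ) ∣ (Y₂ : ℤ) ^ q - e₂ ^ w * b ^ N₂) →
      f Y₁ N₁ = f Y₂ N₂ → q ∣ N₂ - N₁ ∧
        (∀ p : ℕ, p.Prime → p ∣ a → (p : ℤ) ∣ (Y₁ : ℤ) * b ^ ((N₂ - N₁) / q) - Y₂) ∧
        (2 ∣ a → (4 : ℤ) ∣ (Y₁ : ℤ) * b ^ ((N₂ - N₁) / q) - Y₂))
    {A B : Finset (ℕ × ℕ)} (hA : A ⊆ G) (hB : B ⊆ G) (hAc : A.card = w) (hBc : B.card = w)
    (hN : ∑ x ∈ A, x.2 ≤ ∑ x ∈ B, x.2)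
    (hcl : f (∏ x ∈ A, y x) (∑ x ∈ A, x.2) = f (∏ x ∈ B, y x) (∑ x ∈ B, x.2)) :
    ∏ x ∈ A, y x = ∏ x ∈ B, y x ∧ ∑ x ∈ A, x.2 = ∑ x ∈ B, x.2 := by
  have hq0 : 0 < q := hq.pos
  have haz : 1 ≤ a := by omega
  have hM : 1 ≤ M := by
    rcases Nat.eq_zero_or_pos M with h0 | h0
    · exfalso
      have h1 := h.big
      rw [h0, pow_zero] at h1
      have h2 : 1 ≤ q ^ 4 := Nat.one_le_pow _ _ hq0
      omega
    · exact h0
  set NA := ∑ x ∈ A, x.2 with hNA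
  set NB := ∑ x ∈ B, x.2 with hNB
  set YA := ∏ x ∈ A, y x with hYA
  set YB := ∏ x ∈ B, y x with hYB
  have hapA := h.approx hA
  have hapB := h.approx hB
  rw [hAc, ← hYA, ← hNA] at hapA
  rw [hBc, ← hYB, ← hNB] at hapB
  have hmod : ∀ (Y N : ℕ), (a : ℤ) ^ M ∣ (Y : ℤ) ^ q - e₂ ^ w * (b : ℤ) ^ N →
      ∀ p : ℕ, p.Prime → p ∣ a → (p : ℤ) ∣ (Y : ℤ) ^ q - e₂ ^ w * b ^ N := by
    intro Y N hd p hp hpa
    refine dvd_trans ?_ hd
    have h1 : (p : ℤ) ∣ (a : ℤ) := by exact_mod_cast hpa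
    exact h1.trans (dvd_pow_self _ (by omega))
  obtain ⟨⟨t, ht⟩, hc1, hc2⟩ := hf YA NA YB NB hN (hmod _ _ hapA) (hmod _ _ hapB) hcl
  have hdiv : (NB - NA) / q = t := by rw [ht]; exact Nat.mul_div_cancel_left t hq0
  have hNB2 : NB = NA + q * t := by omega
  rw [hdiv] at hc1 hc2
  -- coprimality
  have hYAa : Nat.Coprime YA a := Nat.Coprime.prod_left fun x hx => h.coprime_a hab he₂ hq0 (hA hx)
  have hYBb : Nat.Coprime YB b := Nat.Coprime.prod_left fun x hx => h.coprime_b hab he₁ hq0 (hB hx)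
  have hcop : IsCoprime ((YA * b ^ t : ℕ) : ℤ) (a : ℤ) := by
    rw [Nat.isCoprime_iff_coprime]
    exact Nat.Coprime.mul_left hYAa (hab.symm.pow_left t)
  have hdvd : (a : ℤ) ^ M ∣ (((YA * b ^ t : ℕ)) : ℤ) ^ q - (YB : ℤ) ^ q := by
    have e : (((YA * b ^ t : ℕ)) : ℤ) ^ q - (YB : ℤ) ^ q
        = ((YA : ℤ) ^ q - e₂ ^ w * (b : ℤ) ^ NA) * (b : ℤ) ^ (q * t)
          - ((YB : ℤ) ^ q - e₂ ^ w * (b : ℤ) ^ NB) := by
      rw [hNB2, pow_add]; push_cast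
      rw [mul_pow, ← pow_mul, mul_comm t q]; ring
    rw [e]
    exact dvd_sub (dvd_mul_of_dvd_left hapA _) hapB
  have hclose := close hq hcop (y := (YB : ℤ)) (by
    intro p hp hpa
    have := hc1 p hp hpa
    push_cast
    exact this) (by
    intro h2a
    have := hc2 h2a
    push_cast
    exact this) hdvd
  -- sizes
  have hprodle : ∀ T : Finset (ℕ × ℕ), T ⊆ G → T.card = w →
      (∏ x ∈ T, y x) ^ (4 * q) ≤ (16 * a ^ (5 * M)) ^ w := by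
    intro T hT hTc
    rw [← prod_pow, ← hTc]
    exact prod_le_pow_card _ _ _ fun x hx => h.size he₁ he₂ haz (hT hx)
  have hNdiff : q * t ≤ w * D := by
    have h1 : NB ≤ w * (n₀ + D) := by
      rw [hNB, ← hBc, ← smul_eq_mul]
      exact sum_le_card_nsmul _ _ _ fun x hx => h.nhi x (hB hx)
    have h2 : w * n₀ ≤ NA := by
      rw [hNA, ← hAc, ← smul_eq_mul]
      exact card_nsmul_le_sum _ _ _ fun x hx => h.nlo x (hA hx)
    rw [mul_add] at h1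
    omega
  have hxs : (YA * b ^ t) ^ (4 * q) ≤ (16 * a ^ (6 * M)) ^ w := by
    calc (YA * b ^ t) ^ (4 * q) = YA ^ (4 * q) * b ^ (4 * (q * t)) := by
          rw [mul_pow, ← pow_mul]; congr 2; ring
      _ ≤ (16 * a ^ (5 * M)) ^ w * b ^ (4 * (w * D)) :=
          Nat.mul_le_mul (hprodle A hA hAc) (Nat.pow_le_pow_right (by omega) (by omega))
      _ = (16 * a ^ (5 * M)) ^ w * (b ^ (4 * D)) ^ w := by rw [← pow_mul]; congr 2; ring
      _ ≤ (16 * a ^ (5 * M)) ^ w * (a ^ M) ^ w :=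
          Nat.mul_le_mul_left _ (Nat.pow_le_pow_left h.hD w)
      _ = (16 * a ^ (6 * M)) ^ w := by
          rw [← mul_pow, mul_assoc, ← pow_add]; congr 3; ring
  have hys : YB ^ (4 * q) ≤ (16 * a ^ (6 * M)) ^ w := by
    refine (hprodle B hB hBc).trans (Nat.pow_le_pow_left (Nat.mul_le_mul_left _ ?_) _)
    exact Nat.pow_le_pow_right haz (by omega)
  have hYA0 : 0 < YA := prod_pos fun x hx => h.pos x (hA hx)
  have hYB0 : 0 < YB := prod_pos fun x hx => h.pos x (hB hx)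
  have heq : YA * b ^ t = YB := by
    refine eq_of_close hclose (by positivity) hYB0 ?_ ?_ hq0
    · exact size_bound hw haz hq0 h.big hxs
    · exact size_bound hw haz hq0 h.big hys
  rcases Nat.eq_zero_or_pos t with ht0 | ht0
  · rw [ht0] at heq hNB2
    constructor
    · rw [← heq]; simp
    · omega
  · exfalso
    have h1 : b ∣ YB := by
      rw [← heq]; exact dvd_mul_of_dvd_right (dvd_pow_self b ht0.ne') _
    have h2 := Nat.eq_one_of_dvd_coprimes hYBb h1 dvd_rfl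
    omega

/-- the number of classes -/
theorem card_classes (a q : ℕ) [NeZero q] :
    (univ : Finset ((Fin q × Fin 4) × (a.primeFactors → Fin q))).card =
      4 * q ^ (a.primeFactors.card + 1) := by
  rw [card_univ, Fintype.card_prod, Fintype.card_prod, Fintype.card_fun, Fintype.card_fin,
    Fintype.card_fin, Fintype.card_coe, pow_succ]
  ring

/-- there are few solutions if different sets of `w` solutions have different products -/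
theorem Block.card_le (h : Block a b q e₁ e₂ G y M n₀ D) (ha : 2 ≤ a) (hb : 2 ≤ b)
    (hab : Nat.Coprime a b) (hq : q.Prime)
    (he₁ : e₁ = 1 ∨ e₁ = -1) (he₂ : e₂ = 1 ∨ e₂ = -1) {w : ℕ} (hw1 : 1 ≤ w) (hw : 2 * w ≤ q)
    (hqw : q ≤ 2 * w + 1) {T : Finset (ℕ × ℕ)} (hT : T ⊆ G)
    (hne : ∀ A B : Finset (ℕ × ℕ), A ⊆ T → B ⊆ T → A.card = w → B.card = w → A ≠ B →
      ∏ x ∈ A, (e₁ * (a : ℤ) ^ x.1 + e₂ * (b : ℤ) ^ x.2) =
        ∏ x ∈ B, (e₁ * (a : ℤ) ^ x.1 + e₂ * (b : ℤ) ^ x.2) →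
      ∑ x ∈ A, x.2 = ∑ x ∈ B, x.2 → False) :
    T.card ≤ 5 * w * 3 ^ (a.primeFactors.card + 1) := by
  apply card_bound hw1 hqw
  by_contra hcon
  push Not at hcon
  have : NeZero q := ⟨hq.ne_zero⟩
  obtain ⟨f, hf⟩ := exists_class (by omega : a ≠ 0) hab hq.pos (e₂ ^ w)
  rw [← card_powersetCard, ← card_classes a q] at hcon
  obtain ⟨A, hA, B, hB, hAB, hcl⟩ := exists_ne_map_eq_of_card_lt_of_maps_to hcon
    (f := fun A : Finset (ℕ × ℕ) => f (∏ x ∈ A, y x) (∑ x ∈ A, x.2))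
    (fun _ _ => mem_coe.2 (mem_univ _))
  rw [mem_powersetCard] at hA hB
  have hfin : ∏ x ∈ A, y x = ∏ x ∈ B, y x ∧ ∑ x ∈ A, x.2 = ∑ x ∈ B, x.2 := by
    rcases le_total (∑ x ∈ A, x.2) (∑ x ∈ B, x.2) with hN | hN
    · exact h.merge ha hb hab hq he₁ he₂ hw hf (hA.1.trans hT) (hB.1.trans hT) hA.2 hB.2 hN hcl
    · have := h.merge ha hb hab hq he₁ he₂ hw hf (hB.1.trans hT) (hA.1.trans hT) hB.2 hA.2 hN
        hcl.symm
      exact ⟨this.1.symm, this.2.symm⟩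
  refine hne A B hA.1 hB.1 hA.2 hB.2 hAB ?_ hfin.2
  have key : ∀ X : Finset (ℕ × ℕ), X ⊆ G →
      ∏ x ∈ X, (e₁ * (a : ℤ) ^ x.1 + e₂ * (b : ℤ) ^ x.2) = ((∏ x ∈ X, y x : ℕ) : ℤ) ^ q := by
    intro X hX
    rw [Nat.cast_prod, ← prod_pow]
    exact prod_congr rfl fun x hx => (h.eq x (hX hx)).symm
  rw [key A (hA.1.trans hT), key B (hB.1.trans hT), hfin.1]

theorem not_isUnit_two_le {c : ℕ} (hc : 2 ≤ c) : ¬ IsUnit (c : ℤ) := by
  rw [Int.isUnit_iff]; omega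

theorem isCoprime_sign {e : ℤ} (he : e = 1 ∨ e = -1) (c : ℤ) : IsCoprime e c := by
  rcases he with rfl | rfl
  · exact isCoprime_one_left
  · exact isCoprime_one_left.neg_left

theorem Block.ne_zero (h : Block a b q e₁ e₂ G y M n₀ D) {x : ℕ × ℕ} (hx : x ∈ G) :
    e₁ * (a : ℤ) ^ x.1 + e₂ * (b : ℤ) ^ x.2 ≠ 0 := by
  rw [← h.eq x hx]
  have := h.pos x hx
  positivity

/-- solutions with distinct first exponents -/
theorem Block.card_fst (h : Block a b q e₁ e₂ G y M n₀ D) (ha : 2 ≤ a) (hb : 2 ≤ b)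
    (hab : Nat.Coprime a b) (hq : q.Prime)
    (he₁ : e₁ = 1 ∨ e₁ = -1) (he₂ : e₂ = 1 ∨ e₂ = -1) {w : ℕ} (hw1 : 1 ≤ w) (hw : 2 * w ≤ q)
    (hqw : q ≤ 2 * w + 1) {T : Finset (ℕ × ℕ)} (hT : T ⊆ G)
    (hinj : Set.InjOn (fun x : ℕ × ℕ => x.1) T) :
    T.card ≤ 5 * w * 3 ^ (a.primeFactors.card + 1) := by
  classical
  apply h.card_le ha hb hab hq he₁ he₂ hw1 hw hqw hT
  intro A B hA hB hAc hBc hAB hp hN
  have hsub : ∀ x ∈ A ∪ B, x ∈ T := fun x hx => by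
    rcases mem_union.1 hx with hx | hx
    · exact hA hx
    · exact hB hx
  refine prod_ne hAB (c := (a : ℤ)) (by positivity) (not_isUnit_two_le ha)
    (U := fun x => e₂ * (b : ℤ) ^ x.2) (ε := fun _ => e₁) (k := fun x => x.1) ?_ ?_ ?_ ?_ ?_ ?_
  · intro x hx x' hx' hxx
    exact hinj (mem_coe.2 (hsub x (mem_coe.1 hx))) (mem_coe.2 (hsub x' (mem_coe.1 hx'))) hxx
  · intro x _
    exact (isCoprime_sign he₂ _).mul_left (Nat.isCoprime_iff_coprime.2 hab.symm).pow_left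
  · intro x _; exact isCoprime_sign he₁ _
  · intro x hx
    rw [add_comm]
    exact h.ne_zero (hT (hsub x hx))
  · rw [prod_mul_distrib, prod_mul_distrib, prod_const, prod_const, prod_pow_eq_pow_sum,
      prod_pow_eq_pow_sum, hAc, hBc, hN]
  · simpa only [add_comm] using hp

/-- solutions with the same first exponent -/
theorem Block.card_snd (h : Block a b q e₁ e₂ G y M n₀ D) (ha : 2 ≤ a) (hb : 2 ≤ b)
    (hab : Nat.Coprime a b) (hq : q.Prime)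
    (he₁ : e₁ = 1 ∨ e₁ = -1) (he₂ : e₂ = 1 ∨ e₂ = -1) {w : ℕ} (hw1 : 1 ≤ w) (hw : 2 * w ≤ q)
    (hqw : q ≤ 2 * w + 1) {T : Finset (ℕ × ℕ)} (hT : T ⊆ G) {m : ℕ} (hm : ∀ x ∈ T, x.1 = m) :
    T.card ≤ 5 * w * 3 ^ (a.primeFactors.card + 1) := by
  classical
  apply h.card_le ha hb hab hq he₁ he₂ hw1 hw hqw hT
  intro A B hA hB hAc hBc hAB hp _
  have hsub : ∀ x ∈ A ∪ B, x ∈ T := fun x hx => by
    rcases mem_union.1 hx with hx | hx
    · exact hA hx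
    · exact hB hx
  refine prod_ne hAB (c := (b : ℤ)) (by positivity) (not_isUnit_two_le hb)
    (U := fun x => e₁ * (a : ℤ) ^ x.1) (ε := fun _ => e₂) (k := fun x => x.2) ?_ ?_ ?_ ?_ ?_ hp
  · intro x hx x' hx' hxx
    have h1 := hm x (hsub x (mem_coe.1 hx))
    have h2 := hm x' (hsub x' (mem_coe.1 hx'))
    exact Prod.ext (h1.trans h2.symm) hxx
  · intro x _
    exact (isCoprime_sign he₁ _).mul_left (Nat.isCoprime_iff_coprime.2 hab).pow_left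
  · intro x _; exact isCoprime_sign he₂ _
  · intro x hx
    exact h.ne_zero (hT (hsub x hx))
  · have e : ∀ X : Finset (ℕ × ℕ), X ⊆ T → X.card = w →
        ∏ x ∈ X, e₁ * (a : ℤ) ^ x.1 = (e₁ * (a : ℤ) ^ m) ^ w := by
      intro X hX hXc
      rw [prod_congr rfl fun x hx => by rw [hm x (hX hx)], prod_const, hXc]
    rw [e A hA hAc, e B hB hBc]

/-- **the number of solutions in a block** -/
theorem Block.card_bound (h : Block a b q e₁ e₂ G y M n₀ D) (ha : 2 ≤ a) (hb : 2 ≤ b)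
    (hab : Nat.Coprime a b) (hq : q.Prime)
    (he₁ : e₁ = 1 ∨ e₁ = -1) (he₂ : e₂ = 1 ∨ e₂ = -1) {w : ℕ} (hw1 : 1 ≤ w) (hw : 2 * w ≤ q)
    (hqw : q ≤ 2 * w + 1) :
    G.card ≤ (5 * w * 3 ^ (a.primeFactors.card + 1)) ^ 2 := by
  classical
  set R := 5 * w * 3 ^ (a.primeFactors.card + 1) with hR
  have h1 : G.card ≤ R * (G.image fun x => x.1).card := by
    apply card_le_mul_card_image
    intro m _
    exact h.card_snd ha hb hab hq he₁ he₂ hw1 hw hqw (filter_subset _ _)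
      (m := m) fun x hx => (mem_filter.1 hx).2
  have h2 : (G.image fun x => x.1).card ≤ R := by
    -- representatives
    have hex : ∀ m ∈ G.image (fun x : ℕ × ℕ => x.1), ∃ x ∈ G, x.1 = m := fun m hm => by
      simpa using hm
    choose! g hg using hex
    have hgi : Set.InjOn g (G.image fun x : ℕ × ℕ => x.1) := by
      intro m hm m' hm' hmm
      rw [← (hg m hm).2, ← (hg m' hm').2, hmm]
    rw [← card_image_of_injOn hgi]
    refine h.card_fst ha hb hab hq he₁ he₂ hw1 hw hqw ?_ ?_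
    · intro x hx
      obtain ⟨m, hm, rfl⟩ := mem_image.1 hx
      exact (hg m hm).1
    · intro x hx x' hx' hxx
      obtain ⟨m, hm, rfl⟩ := mem_image.1 (mem_coe.1 hx)
      obtain ⟨m', hm', rfl⟩ := mem_image.1 (mem_coe.1 hx')
      have h3 : m = m' := by
        rw [← (hg m hm).2, ← (hg m' hm').2]; exact hxx
      rw [h3]
  calc G.card ≤ R * (G.image fun x => x.1).card := h1
    _ ≤ R * R := Nat.mul_le_mul_left _ h2
    _ = R ^ 2 := (sq R).symm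

end

end Pool.Agent.Y411.PB
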