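import Mathlib
import Pool.Agent.Y411.PB.Blk

/-!
Covering `[1, N] ^ 2` by blocks: the number of solutions of `y ^ q = e₁ a ^ m + e₂ b ^ n` for one
prime `q`.
-/

set_option autoImplicit false

namespace Pool.Agent.Y411.PB

open Finset

/-- the block of a pair -/
noncomputable def key (a b : ℕ) (x : ℕ × ℕ) : ℕ × (ℕ × ℕ) :=
  (Nat.log 2 x.1, 4 * x.1 / 2 ^ Nat.log 2 x.1,
    ⌊4 * x.2 * Real.log b / (2 ^ Nat.log 2 x.1 * Real.log a)⌋₊)

theorem log_pos_two {a : ℕ} (ha : 2 ≤ a) : 0 < Real.log a :=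
  Real.log_pos (by exact_mod_cast ha)

theorem pow_le_of_log {a b m n : ℕ} (ha : 2 ≤ a) (hb : 2 ≤ b)
    (h : (n : ℝ) * Real.log b ≤ m * Real.log a) : b ^ n ≤ a ^ m := by
  have h1 : Real.log ((b : ℝ) ^ n) ≤ Real.log ((a : ℝ) ^ m) := by
    rw [Real.log_pow, Real.log_pow]; exact h
  have h2 := (Real.log_le_log_iff (by positivity) (by positivity)).1 h1
  exact_mod_cast h2

theorem log_of_pow_le {a b m n : ℕ} (hb : 2 ≤ b) (h : b ^ n ≤ a ^ m) :
    (n : ℝ) * Real.log b ≤ m * Real.log a := by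
  rw [← Real.log_pow, ← Real.log_pow]
  exact Real.log_le_log (by positivity) (by exact_mod_cast h)

theorem key_mem {a b N : ℕ} (ha : 2 ≤ a) (hb : 2 ≤ b) {x : ℕ × ℕ} (h1 : 1 ≤ x.1) (hN : x.1 ≤ N)
    (hle : b ^ x.2 ≤ a ^ x.1) :
    key a b x ∈ range (Nat.log 2 N + 1) ×ˢ (range 8 ×ˢ range 8) := by
  have hj1 : 2 ^ Nat.log 2 x.1 ≤ x.1 := Nat.pow_log_le_self 2 (by omega)
  have hj2 : x.1 < 2 ^ (Nat.log 2 x.1 + 1) := Nat.lt_pow_succ_log_self (by norm_num) _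
  have hla := log_pos_two ha
  simp only [key, mem_product, mem_range]
  refine ⟨?_, ?_, ?_⟩
  · exact Nat.lt_succ_of_le (Nat.log_mono_right hN)
  · rw [Nat.div_lt_iff_lt_mul (by positivity)]
    rw [pow_succ] at hj2
    omega
  · rw [Nat.floor_lt (by
      have := (log_pos_two hb).le
      positivity)]
    have hP : (0 : ℝ) < 2 ^ Nat.log 2 x.1 := by positivity
    rw [div_lt_iff₀ (by positivity)]
    have h3 := log_of_pow_le hb hle
    have h4 : (x.1 : ℝ) < 2 ^ (Nat.log 2 x.1) * 2 := by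
      rw [pow_succ] at hj2; exact_mod_cast hj2
    push_cast
    nlinarith

/-- two pairs in the same block -/
theorem key_eq {a b : ℕ} (ha : 2 ≤ a) (hb : 2 ≤ b) {x x' : ℕ × ℕ} (h1 : 1 ≤ x.1) (h1' : 1 ≤ x'.1)
    (h : key a b x = key a b x') : 4 * x.1 ≤ 5 * x'.1 ∧
      (4 * ((x.2 : ℝ) - x'.2)) * Real.log b ≤ 2 ^ Nat.log 2 x'.1 * Real.log a := by
  simp only [key, Prod.mk.injEq] at h
  obtain ⟨hj, hi, hl⟩ := h
  have hj1 : 2 ^ Nat.log 2 x.1 ≤ x.1 := Nat.pow_log_le_self 2 (by omega)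
  have hj1' : 2 ^ Nat.log 2 x'.1 ≤ x'.1 := Nat.pow_log_le_self 2 (by omega)
  rw [hj] at hi hl hj1
  have hla := log_pos_two ha
  have hlb := log_pos_two hb
  set P := 2 ^ Nat.log 2 x'.1 with hP
  have hP0 : 0 < P := by positivity
  constructor
  · have e1 := Nat.div_mul_le_self (4 * x'.1) P
    have e2 : 4 * x.1 < (4 * x.1 / P + 1) * P := by
      have := Nat.lt_div_mul_add (a := 4 * x.1) hP0
      rw [add_mul, one_mul]; exact this
    rw [hi, add_mul, one_mul] at e2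
    have e3 : 4 ≤ 4 * x'.1 / P := by
      rw [Nat.le_div_iff_mul_le hP0]; omega
    have e4 : 4 * P ≤ 4 * x'.1 / P * P := Nat.mul_le_mul_right _ e3
    omega
  · have hPr : (0 : ℝ) < 2 ^ Nat.log 2 x'.1 := by positivity
    have hden : (0 : ℝ) < 2 ^ Nat.log 2 x'.1 * Real.log a := by positivity
    have e1 := Nat.floor_le (a := 4 * (x'.2 : ℝ) * Real.log b / (2 ^ Nat.log 2 x'.1 * Real.log a))
      (by positivity)
    have e2 := Nat.lt_floor_add_one (4 * (x.2 : ℝ) * Real.log b / (2 ^ Nat.log 2 x'.1 * Real.log a))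
    rw [hl] at e2
    have e3 := e2.le.trans (add_le_add_left e1 1)
    rw [div_le_iff₀ hden, add_mul, div_mul_cancel₀ _ hden.ne', one_mul] at e3
    linarith

variable {a b q : ℕ} {e₁ e₂ : ℤ}

/-- solutions with `b ^ n ≤ a ^ m`, not too small -/
theorem count_big (ha : 2 ≤ a) (hb : 2 ≤ b) (hab : Nat.Coprime a b) (hq : q.Prime)
    (he₁ : e₁ = 1 ∨ e₁ = -1) (he₂ : e₂ = 1 ∨ e₂ = -1) {N : ℕ} {G : Finset (ℕ × ℕ)} {y : ℕ × ℕ → ℕ}
    (hG : ∀ x ∈ G, 0 < y x ∧ (y x : ℤ) ^ q = e₁ * (a : ℤ) ^ x.1 + e₂ * (b : ℤ) ^ x.2 ∧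
      1 ≤ x.1 ∧ 1 ≤ x.2 ∧ x.1 ≤ N ∧ b ^ x.2 ≤ a ^ x.1 ∧ 4 * q ^ 4 ≤ a ^ x.1) :
    G.card ≤ (5 * (q / 2) * 3 ^ (a.primeFactors.card + 1)) ^ 2 * (64 * (Nat.log 2 N + 1)) := by
  classical
  have h1 : G.card ≤ (5 * (q / 2) * 3 ^ (a.primeFactors.card + 1)) ^ 2 *
      (G.image (key a b)).card := by
    apply card_le_mul_card_image
    intro k hk
    set F := G.filter fun x => key a b x = k with hF
    have hFG : ∀ x ∈ F, x ∈ G ∧ key a b x = k := fun x hx => mem_filter.1 hx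
    have hne : F.Nonempty := by
      obtain ⟨x, hx, hxk⟩ := mem_image.1 hk
      exact ⟨x, mem_filter.2 ⟨hx, hxk⟩⟩
    obtain ⟨xm, hxm, hmin⟩ := exists_min_image F (fun x => x.1) hne
    obtain ⟨xn, hxn, hnmin⟩ := exists_min_image F (fun x => x.2) hne
    obtain ⟨xx, hxx, hnmax⟩ := exists_max_image F (fun x => x.2) hne
    have hone : ∀ x ∈ F, 1 ≤ x.1 := fun x hx => (hG x (hFG x hx).1).2.2.1
    have hkk : ∀ x ∈ F, ∀ x' ∈ F, key a b x = key a b x' := fun x hx x' hx' =>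
      (hFG x hx).2.trans (hFG x' hx').2.symm
    have hq2 := hq.two_le
    have hB : Block a b q e₁ e₂ F y xm.1 xn.2 (xx.2 - xn.2) := by
      refine ⟨fun x hx => (hG x (hFG x hx).1).1, fun x hx => (hG x (hFG x hx).1).2.1,
        fun x hx => ⟨(hG x (hFG x hx).1).2.2.1, (hG x (hFG x hx).1).2.2.2.1⟩,
        fun x hx => (hG x (hFG x hx).1).2.2.2.2.2.1, hmin, ?_, hnmin, ?_, ?_,
        (hG xm (hFG xm hxm).1).2.2.2.2.2.2⟩
      · intro x hx
        exact (key_eq ha hb (hone x hx) (hone xm hxm) (hkk x hx xm hxm)).1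
      · intro x hx
        have h2 := hnmax x hx
        have h3 := hnmin xx hxx
        omega
      · apply pow_le_of_log ha hb
        have h2 := (key_eq ha hb (hone xx hxx) (hone xn hxn) (hkk xx hxx xn hxn)).2
        have hj : Nat.log 2 xn.1 = Nat.log 2 xm.1 := by
          have := hkk xn hxn xm hxm
          simp only [key, Prod.mk.injEq] at this
          exact this.1
        rw [hj] at h2
        have h3 : (2 : ℝ) ^ Nat.log 2 xm.1 ≤ xm.1 := by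
          exact_mod_cast Nat.pow_log_le_self 2 (by have := hone xm hxm; omega)
        have h4 := hnmin xx hxx
        push_cast [Nat.cast_sub h4]
        refine h2.trans (mul_le_mul_of_nonneg_right h3 (log_pos_two ha).le)
    refine hB.card_bound ha hb hab hq he₁ he₂ (w := q / 2) ?_ ?_ ?_ <;> omega
  refine h1.trans (Nat.mul_le_mul_left _ ?_)
  have h2 : G.image (key a b) ⊆ range (Nat.log 2 N + 1) ×ˢ (range 8 ×ˢ range 8) := by
    intro k hk
    obtain ⟨x, hx, rfl⟩ := mem_image.1 hk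
    obtain ⟨-, -, h3, -, h4, h5, -⟩ := hG x hx
    exact key_mem ha hb h3 h4 h5
  have h3 := card_le_card h2
  rw [card_product, card_product, card_range, card_range] at h3
  omega

/-- all solutions with `b ^ n ≤ a ^ m` -/
theorem count_half (ha : 2 ≤ a) (hb : 2 ≤ b) (hab : Nat.Coprime a b) (hq : q.Prime)
    (he₁ : e₁ = 1 ∨ e₁ = -1) (he₂ : e₂ = 1 ∨ e₂ = -1) {N : ℕ} {G : Finset (ℕ × ℕ)} {y : ℕ × ℕ → ℕ}
    (hG : ∀ x ∈ G, 0 < y x ∧ (y x : ℤ) ^ q = e₁ * (a : ℤ) ^ x.1 + e₂ * (b : ℤ) ^ x.2 ∧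
      1 ≤ x.1 ∧ 1 ≤ x.2 ∧ x.1 ≤ N ∧ b ^ x.2 ≤ a ^ x.1) :
    G.card ≤ 4000 * q ^ 2 * 9 ^ a.primeFactors.card * (Nat.log 2 N + 1) := by
  classical
  have hq2 := hq.two_le
  rw [← card_filter_add_card_filter_not (s := G) (fun x => 4 * q ^ 4 ≤ a ^ x.1)]
  have h1 : (G.filter fun x => 4 * q ^ 4 ≤ a ^ x.1).card ≤
      (5 * (q / 2) * 3 ^ (a.primeFactors.card + 1)) ^ 2 * (64 * (Nat.log 2 N + 1)) := by
    apply count_big ha hb hab hq he₁ he₂ (y := y)
    intro x hx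
    obtain ⟨hx1, hx2⟩ := mem_filter.1 hx
    obtain ⟨h3, h4, h5, h6, h7, h8⟩ := hG x hx1
    exact ⟨h3, h4, h5, h6, h7, h8, hx2⟩
  have h2 : (G.filter fun x => ¬ 4 * q ^ 4 ≤ a ^ x.1).card ≤ 36 * q ^ 2 := by
    set lam := Nat.log 2 q + 1 with hlam
    have hlq : lam ≤ q := by
      have : Nat.log 2 q < q := Nat.log_lt_self 2 (by omega)
      omega
    have hsub : (G.filter fun x => ¬ 4 * q ^ 4 ≤ a ^ x.1) ⊆ range (6 * lam) ×ˢ range (6 * lam) := by
      intro x hx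
      obtain ⟨hx1, hx2⟩ := mem_filter.1 hx
      push Not at hx2
      obtain ⟨h3, h4, h5, h6, h7, h8⟩ := hG x hx1
      have hql : q < 2 ^ lam := Nat.lt_pow_succ_log_self (by norm_num) q
      have key2 : ∀ c m : ℕ, 2 ≤ c → c ^ m < 4 * q ^ 4 → m < 6 * lam := by
        intro c m hc hcm
        have e1 : 2 ^ m < 2 ^ (2 + 4 * lam) := by
          calc 2 ^ m ≤ c ^ m := Nat.pow_le_pow_left hc m
            _ < 4 * q ^ 4 := hcm
            _ ≤ 4 * (2 ^ lam) ^ 4 := Nat.mul_le_mul_left _ (Nat.pow_le_pow_left hql.le 4)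
            _ = 2 ^ (2 + 4 * lam) := by rw [← pow_mul, pow_add]; congr 2; ring
        have e2 := (Nat.pow_lt_pow_iff_right (by norm_num : 1 < 2)).1 e1
        omega
      rw [mem_product, mem_range, mem_range]
      exact ⟨key2 a _ ha hx2, key2 b _ hb (lt_of_le_of_lt h8 hx2)⟩
    have h3 := card_le_card hsub
    rw [card_product, card_range] at h3
    calc _ ≤ 6 * lam * (6 * lam) := h3
      _ ≤ 6 * q * (6 * q) := Nat.mul_le_mul (by omega) (by omega)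
      _ = 36 * q ^ 2 := by ring
  have h3 : (5 * (q / 2) * 3 ^ (a.primeFactors.card + 1)) ^ 2 * (64 * (Nat.log 2 N + 1)) ≤
      3600 * q ^ 2 * 9 ^ a.primeFactors.card * (Nat.log 2 N + 1) := by
    have e1 : 2 * (q / 2) ≤ q := by omega
    have e2 : (2 * (q / 2)) ^ 2 ≤ q ^ 2 := Nat.pow_le_pow_left e1 2
    have e3 : (5 * (q / 2) * 3 ^ (a.primeFactors.card + 1)) ^ 2 * (64 * (Nat.log 2 N + 1)) =
        3600 * (2 * (q / 2)) ^ 2 * 9 ^ a.primeFactors.card * (Nat.log 2 N + 1) := by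
      have e4 : (9 : ℕ) ^ a.primeFactors.card = 3 ^ a.primeFactors.card * 3 ^ a.primeFactors.card := by
        rw [← mul_pow]; norm_num
      rw [e4, pow_succ]; ring
    rw [e3]
    exact Nat.mul_le_mul_right _ (Nat.mul_le_mul_right _ (Nat.mul_le_mul_left _ e2))
  have h4 : 36 * q ^ 2 ≤ 400 * q ^ 2 * 9 ^ a.primeFactors.card * (Nat.log 2 N + 1) := by
    have e1 : 1 ≤ 9 ^ a.primeFactors.card := Nat.one_le_pow _ _ (by norm_num)
    calc 36 * q ^ 2 ≤ 400 * q ^ 2 * 1 * 1 := by omega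
      _ ≤ _ := Nat.mul_le_mul (Nat.mul_le_mul_left _ e1) (by omega)
  calc _ ≤ 3600 * q ^ 2 * 9 ^ a.primeFactors.card * (Nat.log 2 N + 1) +
        400 * q ^ 2 * 9 ^ a.primeFactors.card * (Nat.log 2 N + 1) :=
        add_le_add (h1.trans h3) (h2.trans h4)
    _ = _ := by ring

end Pool.Agent.Y411.PB
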