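import Mathlib
import Pool.Agent.TH888.W2.Weak2

/-!
Bound for the exponent `q` in `y ^ q = e₁ a ^ m + e₂ b ^ n` with odd `a`, `b`: linear forms in two
`2`-adic logarithms of the bases.
-/

set_option autoImplicit false

namespace Pool.Agent.Y411.PB

open Finset

theorem pow_ne_pow {a b m n : ℕ} (ha : 2 ≤ a) (hab : Nat.Coprime a b) (hm : 1 ≤ m) :
    a ^ m ≠ b ^ n := by
  intro h
  have h1 : Nat.Coprime (a ^ m) (b ^ n) := hab.pow m n
  rw [← h, Nat.coprime_self] at h1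
  have h2 : a ≤ a ^ m := Nat.le_self_pow (by omega) a
  omega

/-- `2`-adic distance of powers of odd numbers -/
theorem odd_val : ∃ C κ : ℕ, ∀ a b m n q S : ℕ, 2 ≤ S → 2 ≤ a → 1 ≤ b → Nat.Coprime a b →
    ¬ 2 ∣ a → ¬ 2 ∣ b → a ≤ 2 ^ S → b ≤ 2 ^ S → m ≤ 2 ^ S → n ≤ 2 ^ S → 1 ≤ m →
    (2 : ℤ) ^ q ∣ (a : ℤ) ^ (2 * m) - (b : ℤ) ^ (2 * n) → q ≤ C * S ^ κ := by
  obtain ⟨C, κ, h⟩ := Pool.Agent.TH888.W2.weakBaker_all 2
  refine ⟨C * 2 ^ κ, κ, ?_⟩
  intro a b m n q S hS ha hb hab ha2 hb2 haS hbS hmS hnS hm hd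
  have := Fact.mk Nat.prime_two
  have hca : Nat.Coprime a (2 ^ q) :=
    Nat.Coprime.pow_right q ((Nat.Prime.coprime_iff_not_dvd Nat.prime_two).2 ha2).symm
  have hcb : Nat.Coprime b (2 ^ q) :=
    Nat.Coprime.pow_right q ((Nat.Prime.coprime_iff_not_dvd Nat.prime_two).2 hb2).symm
  have key := h 2 (S + 1) (by omega) ![a, b] ![2 * m, -(2 * n)] q
    ![ZMod.unitOfCoprime a hca, ZMod.unitOfCoprime b hcb]
    (by intro i; fin_cases i <;> simp)
    (by intro i; fin_cases i <;> simp <;> omega)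
    (by
      intro i
      have e : 2 ^ S ≤ 2 ^ (S + 1) := Nat.pow_le_pow_right (by norm_num) (by omega)
      fin_cases i
      · exact haS.trans e
      · exact hbS.trans e)
    (by
      intro i
      have e1 : (m : ℤ) ≤ 2 ^ S := by exact_mod_cast hmS
      have e2 : (n : ℤ) ≤ 2 ^ S := by exact_mod_cast hnS
      fin_cases i
      · simp only [Fin.mk_zero, Fin.isValue, Matrix.cons_val_zero]
        rw [abs_of_nonneg (by positivity), pow_succ]; linarith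
      · simp only [Fin.mk_one, Fin.isValue, Matrix.cons_val_one, Matrix.cons_val_zero]
        rw [abs_neg, abs_of_nonneg (by positivity), pow_succ]; linarith)
    (by
      rw [Fin.prod_univ_two]
      simp only [Fin.isValue, Matrix.cons_val_zero, Matrix.cons_val_one]
      intro h1
      have hb0 : (b : ℚ) ≠ 0 := by
        have : b ≠ 0 := by omega
        exact_mod_cast this
      rw [zpow_neg, mul_inv_eq_one₀ (zpow_ne_zero _ hb0)] at h1
      have h2 : (a : ℚ) ^ (2 * m) = (b : ℚ) ^ (2 * n) := by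
        have e1 : ((a : ℚ)) ^ ((2 : ℤ) * m) = (a : ℚ) ^ (2 * m) := by
          rw [← zpow_natCast]; push_cast; rfl
        have e2 : ((b : ℚ)) ^ ((2 : ℤ) * n) = (b : ℚ) ^ (2 * n) := by
          rw [← zpow_natCast]; push_cast; rfl
        rw [← e1, ← e2, h1]
      have h3 : a ^ (2 * m) = b ^ (2 * n) := by exact_mod_cast h2
      exact pow_ne_pow ha hab (by omega) h3)
    (by
      rw [Fin.prod_univ_two]
      simp only [Fin.isValue, Matrix.cons_val_zero, Matrix.cons_val_one]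
      rw [zpow_neg, mul_inv_eq_one]
      have e1 : (ZMod.unitOfCoprime a hca) ^ ((2 : ℤ) * m) = (ZMod.unitOfCoprime a hca) ^ (2 * m) := by
        rw [← zpow_natCast]; push_cast; rfl
      have e2 : (ZMod.unitOfCoprime b hcb) ^ ((2 : ℤ) * n) = (ZMod.unitOfCoprime b hcb) ^ (2 * n) := by
        rw [← zpow_natCast]; push_cast; rfl
      rw [e1, e2]
      apply Units.ext
      rw [Units.val_pow_eq_pow_val, Units.val_pow_eq_pow_val, ZMod.coe_unitOfCoprime,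
        ZMod.coe_unitOfCoprime]
      have h1 := (ZMod.intCast_zmod_eq_zero_iff_dvd _ (2 ^ q)).2 (by exact_mod_cast hd)
      push_cast at h1
      exact sub_eq_zero.1 h1)
  refine key.trans ?_
  calc C * (S + 1) ^ κ ≤ C * (2 * S) ^ κ := Nat.mul_le_mul_left _ (Nat.pow_le_pow_left (by omega) _)
    _ = C * 2 ^ κ * S ^ κ := by rw [mul_pow]; ring

/-- the exponent is small if both bases are odd -/
theorem kb_odd : ∃ C κ : ℕ, ∀ (a b m n q S y : ℕ) (e₁ e₂ : ℤ), 2 ≤ S → 2 ≤ a → 2 ≤ b →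
    Nat.Coprime a b → ¬ 2 ∣ a → ¬ 2 ∣ b → a ≤ 2 ^ S → b ≤ 2 ^ S → m ≤ 2 ^ S → n ≤ 2 ^ S →
    1 ≤ m → (e₁ = 1 ∨ e₁ = -1) → (e₂ = 1 ∨ e₂ = -1) → 1 ≤ q →
    (y : ℤ) ^ q = e₁ * (a : ℤ) ^ m + e₂ * (b : ℤ) ^ n → q ≤ C * S ^ κ := by
  obtain ⟨C, κ, h⟩ := odd_val
  refine ⟨C, κ, ?_⟩
  intro a b m n q S y e₁ e₂ hS ha hb hab ha2 hb2 haS hbS hmS hnS hm he₁ he₂ hq heq
  refine h a b m n q S hS ha (by omega) hab ha2 hb2 haS hbS hmS hnS hm ?_
  have hoa : Odd ((a : ℤ) ^ m) := by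
    apply Odd.pow
    rw [Int.odd_coe_nat, ← Nat.not_even_iff_odd, even_iff_two_dvd]; exact ha2
  have hob : Odd ((b : ℤ) ^ n) := by
    apply Odd.pow
    rw [Int.odd_coe_nat, ← Nat.not_even_iff_odd, even_iff_two_dvd]; exact hb2
  have hs1 : Odd e₁ := by rcases he₁ with rfl | rfl <;> decide
  have hs2 : Odd e₂ := by rcases he₂ with rfl | rfl <;> decide
  have hey : Even ((y : ℤ) ^ q) := by
    rw [heq]; exact (hs1.mul hoa).add_odd (hs2.mul hob)
  have hy2 : (2 : ℤ) ∣ y := by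
    rw [Int.even_pow] at hey
    exact even_iff_two_dvd.1 hey.1
  have h1 : (2 : ℤ) ^ q ∣ (y : ℤ) ^ q := pow_dvd_pow_of_dvd hy2 q
  have e1 : e₁ * e₁ = 1 := by rcases he₁ with rfl | rfl <;> norm_num
  have e2 : e₂ * e₂ = 1 := by rcases he₂ with rfl | rfl <;> norm_num
  have e : (a : ℤ) ^ (2 * m) - (b : ℤ) ^ (2 * n)
      = (y : ℤ) ^ q * (e₁ * (a : ℤ) ^ m - e₂ * (b : ℤ) ^ n) := by
    rw [heq, two_mul, two_mul, pow_add, pow_add]
    linear_combination (-(a : ℤ) ^ m * (a : ℤ) ^ m) * e1 + ((b : ℤ) ^ n * (b : ℤ) ^ n) * e2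
  rw [e]
  exact dvd_mul_of_dvd_left h1 _

end Pool.Agent.Y411.PB
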