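import Mathlib
import Pool.Agent.H374R2.V.TL
import Pool.Agent.Y411.PB.Odd

/-!
Bound for the prime exponent `q` in `y ^ q = e₁ a ^ m + e₂ b ^ n` with even `a` and
`b ^ n ≤ a ^ (2 m)`: linear forms in two `2`-adic logarithms (linear in `log y`).
-/

set_option autoImplicit false

namespace Pool.Agent.Y411.PB

open Finset

theorem sol_coprime_a {a b m n q y : ℕ} {e₁ e₂ : ℤ} (hab : Nat.Coprime a b) (hm : 1 ≤ m)
    (he₂ : e₂ = 1 ∨ e₂ = -1) (hq : 0 < q)
    (heq : (y : ℤ) ^ q = e₁ * (a : ℤ) ^ m + e₂ * (b : ℤ) ^ n) : Nat.Coprime y a := by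
  have h1 : IsCoprime ((y : ℤ) ^ q) (a : ℤ) := by
    rw [heq]
    obtain ⟨k, hk⟩ : ∃ k, m = k + 1 := ⟨m - 1, by omega⟩
    rw [hk, pow_succ, ← mul_assoc, add_comm]
    have h2 : IsCoprime (e₂ * (b : ℤ) ^ n) (a : ℤ) := by
      apply IsCoprime.mul_left
      · rcases he₂ with rfl | rfl
        · exact isCoprime_one_left
        · exact isCoprime_one_left.neg_left
      · exact (Nat.isCoprime_iff_coprime.2 hab.symm).pow_left
    exact IsCoprime.add_mul_right_left h2 (e₁ * (a : ℤ) ^ k)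
  exact Nat.isCoprime_iff_coprime.1 ((IsCoprime.pow_left_iff hq).1 h1)

theorem sol_coprime_b {a b m n q y : ℕ} {e₁ e₂ : ℤ} (hab : Nat.Coprime a b) (hn : 1 ≤ n)
    (he₁ : e₁ = 1 ∨ e₁ = -1) (hq : 0 < q)
    (heq : (y : ℤ) ^ q = e₁ * (a : ℤ) ^ m + e₂ * (b : ℤ) ^ n) : Nat.Coprime y b :=
  sol_coprime_a (e₁ := e₂) hab.symm hn he₁ hq (by rw [heq, add_comm])

/-- **even `a`, `b ^ n ≤ a ^ (2 m)`** -/
theorem kb_pad {a b m n q S y : ℕ} {e₁ e₂ : ℤ} (hq : q.Prime) (ha : 2 ≤ a)
    (hb : 2 ≤ b) (hab : Nat.Coprime a b) (ha2 : 2 ∣ a) (haS : a < 2 ^ S) (hbS : b < 2 ^ S)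
    (hm : 1 ≤ m) (hn : 1 ≤ n) (he₁ : e₁ = 1 ∨ e₁ = -1) (he₂ : e₂ = 1 ∨ e₂ = -1) (hy : 2 ≤ y)
    (heq : (y : ℤ) ^ q = e₁ * (a : ℤ) ^ m + e₂ * (b : ℤ) ^ n) (hle : b ^ n ≤ a ^ (2 * m)) :
    q < 4000000 * (Nat.log 2 q + 1) ^ 2 * S ^ 2 := by
  have hq2 := hq.two_le
  have hS : 1 ≤ S := by
    rcases Nat.eq_zero_or_pos S with h0 | h0
    · rw [h0, pow_zero] at haS; omega
    · exact h0
  set lam := Nat.log 2 q + 1 with hlam
  have hlam1 : 1 ≤ lam := by omega
  have hb2 : ¬ 2 ∣ b := by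
    intro h
    have := Nat.dvd_gcd ha2 h
    rw [hab] at this
    omega
  have hya : Nat.Coprime y a := sol_coprime_a hab hm he₂ hq.pos heq
  have hyb : Nat.Coprime y b := sol_coprime_b hab hn he₁ hq.pos heq
  have hy2 : ¬ 2 ∣ y := by
    intro h
    have := Nat.dvd_gcd h ha2
    rw [hya] at this
    omega
  have hone : 1 ≤ lam ^ 2 * S ^ 2 := Nat.one_le_iff_ne_zero.2 (by positivity)
  set t := n / q with ht
  set i := n % q with hi
  have hnt : q * t + i = n := Nat.div_add_mod n q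
  have hiq : i < q := Nat.mod_lt _ hq.pos
  -- sizes
  set H := 2 * m * S + 1 with hH
  have ha2m : a ^ (2 * m) < 2 ^ (2 * m * S) := by
    calc a ^ (2 * m) < (2 ^ S) ^ (2 * m) := Nat.pow_lt_pow_left haS (by omega)
      _ = 2 ^ (2 * m * S) := by rw [← pow_mul]; congr 1; ring
  have ham : a ^ m ≤ a ^ (2 * m) := Nat.pow_le_pow_right (by omega) (by omega)
  have hyH : y ^ q < 2 ^ H := by
    have h1 : (y : ℤ) ^ q ≤ (a : ℤ) ^ m + (b : ℤ) ^ n := by
      rw [heq]
      have h2 : e₁ * (a : ℤ) ^ m ≤ (a : ℤ) ^ m := by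
        have : (0 : ℤ) ≤ (a : ℤ) ^ m := by positivity
        rcases he₁ with rfl | rfl <;> linarith
      have h3 : e₂ * (b : ℤ) ^ n ≤ (b : ℤ) ^ n := by
        have : (0 : ℤ) ≤ (b : ℤ) ^ n := by positivity
        rcases he₂ with rfl | rfl <;> linarith
      linarith
    have h2 : y ^ q ≤ a ^ m + b ^ n := by exact_mod_cast h1
    have h3 : 2 ^ H = 2 * 2 ^ (2 * m * S) := by rw [hH, pow_succ]; ring
    omega
  set h := H / q + 1 with hh
  have hh1 : 1 ≤ h := by rw [hh]; exact Nat.le_add_left 1 _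
  have hhq1 : H < h * q := by
    have := Nat.lt_div_mul_add (a := H) hq.pos
    rw [hh, add_mul, one_mul]; exact this
  have hqH : q < H := by
    have h1 : 2 ^ q ≤ y ^ q := Nat.pow_le_pow_left hy q
    exact (Nat.pow_lt_pow_iff_right (by norm_num : 1 < 2)).1 (lt_of_le_of_lt h1 hyH)
  have hhq2 : h * q ≤ 6 * m * S := by
    have h1 : h * q ≤ H + q := by
      rw [hh, add_mul, one_mul]
      exact Nat.add_le_add_right (Nat.div_mul_le_self _ _) _
    have h2 : 1 ≤ m * S := Nat.mul_pos hm hS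
    have h3 : 2 * m * S = 2 * (m * S) := by ring
    have h4 : 6 * m * S = 6 * (m * S) := by ring
    omega
  have hyh : y < 2 ^ h := by
    have h1 : y ^ q < (2 ^ h) ^ q := by
      rw [← pow_mul]
      exact hyH.trans_le (Nat.pow_le_pow_right (by norm_num) hhq1.le)
    exact lt_of_pow_lt_pow_left₀ q (Nat.zero_le _) h1
  have hbth : b ^ t < 2 ^ h := by
    have h1 : (b ^ t) ^ q < (2 ^ h) ^ q := by
      calc (b ^ t) ^ q = b ^ (q * t) := by rw [← pow_mul, mul_comm]
        _ ≤ b ^ n := Nat.pow_le_pow_right (by omega) (by omega)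
        _ ≤ a ^ (2 * m) := hle
        _ < 2 ^ (2 * m * S) := ha2m
        _ ≤ (2 ^ h) ^ q := by
          rw [← pow_mul]; exact Nat.pow_le_pow_right (by norm_num) (by omega)
    exact lt_of_pow_lt_pow_left₀ q (Nat.zero_le _) h1
  have hyne : y ≠ b ^ t := by
    intro h1
    rcases Nat.eq_zero_or_pos t with h0 | h0
    · rw [h0, pow_zero] at h1; omega
    · have h2 : b ∣ y := by rw [h1]; exact dvd_pow_self b h0.ne'
      have := Nat.eq_one_of_dvd_coprimes hyb h2 dvd_rfl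
      omega
  have h2m : (2 : ℤ) ^ m ∣ (a : ℤ) ^ m := pow_dvd_pow_of_dvd (by exact_mod_cast ha2) m
  have hmq : m * q < 4000000 * lam ^ 2 * S ^ 2 * m → q < 4000000 * lam ^ 2 * S ^ 2 := by
    intro h1
    have h2 : m * q < m * (4000000 * lam ^ 2 * S ^ 2) := by rw [mul_comm m (4000000 * _ * _)]; exact h1
    exact lt_of_mul_lt_mul_left h2 (Nat.zero_le _)
  rcases Nat.eq_zero_or_pos i with hi0 | hi0
  · -- `q` divides `n`
    rcases hq.eq_two_or_odd' with h2 | hqo
    · calc q = 2 := h2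
        _ < 4000000 * (lam ^ 2 * S ^ 2) := by omega
        _ = _ := by ring
    · have hn' : n = q * t := by omega
      have hb' : e₂ * (b : ℤ) ^ n = (e₂ * (b : ℤ) ^ t) ^ q := by
        rw [mul_pow, ← pow_mul, hn', mul_comm t q]
        congr 1
        rcases he₂ with rfl | rfl
        · rw [one_pow]
        · exact (hqo.neg_one_pow).symm
      have hd : (2 : ℤ) ^ m ∣ (y : ℤ) ^ q - (e₂ * (b : ℤ) ^ t) ^ q := by
        rw [← hb', heq]
        have e : e₁ * (a : ℤ) ^ m + e₂ * (b : ℤ) ^ n - e₂ * (b : ℤ) ^ n = e₁ * (a : ℤ) ^ m := by ring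
        rw [e]
        exact dvd_mul_of_dvd_right h2m _
      have hyo : Odd (y : ℤ) := by
        rw [Int.odd_coe_nat, ← Nat.not_even_iff_odd, even_iff_two_dvd]; exact hy2
      have hbo : Odd (e₂ * (b : ℤ) ^ t) := by
        apply Odd.mul
        · rcases he₂ with rfl | rfl <;> decide
        · apply Odd.pow
          rw [Int.odd_coe_nat, ← Nat.not_even_iff_odd, even_iff_two_dvd]; exact hb2
      have hp2 : Prime (2 : ℤ) := Int.prime_two
      have hd2 : (2 : ℤ) ^ m ∣ (y : ℤ) - e₂ * (b : ℤ) ^ t := by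
        have e := emultiplicity_pow_sub_pow_of_prime hp2
          (x := (y : ℤ)) (y := e₂ * (b : ℤ) ^ t) (even_iff_two_dvd.1 (hyo.sub_odd hbo))
          (by rw [← even_iff_two_dvd, Int.not_even_iff_odd]; exact hyo) (n := q)
          (by
            intro h1
            have h2 : 2 ∣ q := by exact_mod_cast h1
            rw [← even_iff_two_dvd, ← Nat.not_odd_iff_even] at h2
            exact h2 hqo)
        rw [pow_dvd_iff_le_emultiplicity] at hd ⊢
        rwa [e] at hd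
      have hne0 : (y : ℤ) - e₂ * (b : ℤ) ^ t ≠ 0 := by
        intro h1
        rcases he₂ with rfl | rfl
        · apply hyne
          have : (y : ℤ) = (b : ℤ) ^ t := by linarith
          exact_mod_cast this
        · have h2 : (0 : ℤ) < (b : ℤ) ^ t := by positivity
          have h3 : (0 : ℤ) ≤ y := by positivity
          linarith
      have h3 := Int.le_of_dvd (abs_pos.2 hne0) ((dvd_abs _ _).2 hd2)
      have h4 : |(y : ℤ) - e₂ * (b : ℤ) ^ t| < 2 ^ (h + 1) := by
        have h5 : (y : ℤ) < 2 ^ h := by exact_mod_cast hyh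
        have h6 : (b : ℤ) ^ t < 2 ^ h := by exact_mod_cast hbth
        have h7 : (0 : ℤ) < (b : ℤ) ^ t := by positivity
        have h8 : (0 : ℤ) ≤ y := by positivity
        rw [pow_succ, abs_lt]
        rcases he₂ with rfl | rfl <;> constructor <;> linarith
      have h5 : (2 : ℤ) ^ m < 2 ^ (h + 1) := lt_of_le_of_lt h3 h4
      have h6 : m < h + 1 := (pow_lt_pow_iff_right₀ (by norm_num : (1 : ℤ) < 2)).1 h5
      apply hmq
      calc m * q ≤ h * q := Nat.mul_le_mul_right _ (by omega)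
        _ ≤ 6 * m * S := hhq2
        _ ≤ 6 * (lam ^ 2 * S ^ 2) * m := by
          have h7 : S ≤ lam ^ 2 * S ^ 2 := by
            calc S = 1 * S := (one_mul S).symm
              _ ≤ lam ^ 2 * S ^ 2 := Nat.mul_le_mul (Nat.one_le_pow _ _ hlam1)
                (Nat.le_self_pow (by norm_num) S)
          calc 6 * m * S = 6 * S * m := by ring
            _ ≤ 6 * (lam ^ 2 * S ^ 2) * m := Nat.mul_le_mul_right _ (Nat.mul_le_mul_left _ h7)
        _ < 4000000 * lam ^ 2 * S ^ 2 * m := by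
          have h7 : 0 < lam ^ 2 * S ^ 2 * m := Nat.mul_pos hone hm
          have e1 : 6 * (lam ^ 2 * S ^ 2) * m = 6 * (lam ^ 2 * S ^ 2 * m) := by ring
          have e2 : 4000000 * lam ^ 2 * S ^ 2 * m = 4000000 * (lam ^ 2 * S ^ 2 * m) := by ring
          omega
  · by_cases hbig : 600 * 2 * S * lam ≤ q
    · have hrel : ((2 : ℕ) : ℤ) ^ m ∣ (y : ℤ) ^ (2 * q) - ((b ^ t : ℕ) : ℤ) ^ (2 * q) * (b : ℤ) ^ (2 * i) := by
        have e : (y : ℤ) ^ (2 * q) - ((b ^ t : ℕ) : ℤ) ^ (2 * q) * (b : ℤ) ^ (2 * i)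
            = (e₁ * (a : ℤ) ^ m) * ((y : ℤ) ^ q + e₂ * (b : ℤ) ^ n) := by
          have e1 : ((b ^ t : ℕ) : ℤ) ^ (2 * q) * (b : ℤ) ^ (2 * i) = (b : ℤ) ^ n * (b : ℤ) ^ n := by
            push_cast
            rw [← pow_mul, ← pow_add, ← pow_add, ← hnt]; congr 1; ring
          have e2 : e₁ * (a : ℤ) ^ m = (y : ℤ) ^ q - e₂ * (b : ℤ) ^ n := by rw [heq]; ring
          have e3 : e₂ * e₂ = 1 := by rcases he₂ with rfl | rfl <;> norm_num
          rw [e1, e2, two_mul, pow_add]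
          linear_combination ((b : ℤ) ^ n * (b : ℤ) ^ n) * e3
        rw [e]
        push_cast
        exact dvd_mul_of_dvd_left (dvd_mul_of_dvd_right h2m _) _
      have hcop : Nat.Coprime i q :=
        ((Nat.Prime.coprime_iff_not_dvd hq).2 (Nat.not_dvd_of_pos_of_lt hi0 hiq)).symm
      have hb2t : ¬ 2 ∣ b ^ t := fun h1 => hb2 (Nat.prime_two.dvd_of_dvd_pow h1)
      have hlt := Pool.Agent.H374R2.V.TL.two_logs (p := 2) (h := h) (ν := S) (q := q) (i := i)
        (y := m) (a := y) (b := b ^ t) (A := b) Nat.prime_two hh1 hS (by omega)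
        (by positivity) (by omega) hyne hyh hbth hbS hy2 hb2t hb2 hi0 hiq hcop hrel
        (by rw [hlam] at hbig; exact hbig)
      apply hmq
      have hlt' : m < 600000 * lam ^ 2 * h * S := by
        have e : 150000 * 2 ^ 2 * (Nat.log 2 q + 1) ^ 2 * h * S = 600000 * lam ^ 2 * h * S := by
          rw [hlam]; ring
        rw [e] at hlt; exact hlt
      calc m * q < 600000 * lam ^ 2 * h * S * q := Nat.mul_lt_mul_of_pos_right hlt' hq.pos
        _ = 600000 * lam ^ 2 * S * (h * q) := by ring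
        _ ≤ 600000 * lam ^ 2 * S * (6 * m * S) := Nat.mul_le_mul_left _ hhq2
        _ = 3600000 * lam ^ 2 * S ^ 2 * m := by ring
        _ ≤ 4000000 * lam ^ 2 * S ^ 2 * m :=
          Nat.mul_le_mul_right _ (Nat.mul_le_mul_right _ (Nat.mul_le_mul_right _ (by norm_num)))
    · push Not at hbig
      calc q < 1200 * (S * lam) := by rw [← mul_assoc]; exact hbig
        _ ≤ 1200 * (lam ^ 2 * S ^ 2) := by
          apply Nat.mul_le_mul_left
          rw [mul_comm (lam ^ 2)]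
          exact Nat.mul_le_mul (Nat.le_self_pow (by norm_num) S) (Nat.le_self_pow (by norm_num) lam)
        _ ≤ 4000000 * (lam ^ 2 * S ^ 2) := Nat.mul_le_mul_right _ (by norm_num)
        _ = _ := by ring

end Pool.Agent.Y411.PB
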