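import Mathlib
import Pool.Agent.H374R2.W.QL
import Pool.Agent.Y411.PB.Pad

/-!
Bound for the prime exponent `q` in `y ^ q = b ^ n ± a ^ m` with `a ^ (2 m) ≤ b ^ n`: linear forms in
two logarithms over the reals (linear in `log y`).
-/

set_option autoImplicit false

namespace Pool.Agent.Y411.PB

open Finset

theorem log_two_ge : (0.69 : ℝ) ≤ Real.log 2 := by
  have := Real.log_two_gt_d9
  linarith

theorem log_ge {b : ℕ} (hb : 2 ≤ b) : (0.69 : ℝ) ≤ Real.log b :=
  log_two_ge.trans (Real.log_le_log (by norm_num) (by exact_mod_cast hb))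

/-- differences of distinct `q`-th powers -/
theorem pow_diff {x y q : ℕ} (hq : 1 ≤ q) (h : x < y) : y ^ (q - 1) ≤ y ^ q - x ^ q := by
  have h1 : x ^ q ≤ (y - 1) * y ^ (q - 1) := by
    obtain ⟨k, rfl⟩ : ∃ k, q = k + 1 := ⟨q - 1, by omega⟩
    rw [Nat.add_sub_cancel, pow_succ, mul_comm]
    exact Nat.mul_le_mul (by omega) (Nat.pow_le_pow_left h.le k)
  have h2 : y ^ q = (y - 1) * y ^ (q - 1) + y ^ (q - 1) := by
    obtain ⟨k, rfl⟩ : ∃ k, q = k + 1 := ⟨q - 1, by omega⟩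
    obtain ⟨z, rfl⟩ : ∃ z, y = z + 1 := ⟨y - 1, by omega⟩
    rw [Nat.add_sub_cancel, Nat.add_sub_cancel, pow_succ]; ring
  omega

theorem kb_arch {a b m n q S y : ℕ} {e₁ e₂ : ℤ} (hq : q.Prime) (ha : 2 ≤ a)
    (hb : 2 ≤ b) (hab : Nat.Coprime a b) (hbS : b < 2 ^ S)
    (hm : 1 ≤ m) (hn : 1 ≤ n) (he₁ : e₁ = 1 ∨ e₁ = -1) (he₂ : e₂ = 1 ∨ e₂ = -1) (hy : 2 ≤ y)
    (heq : (y : ℤ) ^ q = e₁ * (a : ℤ) ^ m + e₂ * (b : ℤ) ^ n) (hle : a ^ (2 * m) ≤ b ^ n) :
    q < 2000000000 * (Nat.log 2 q + 1) ^ 2 * S ^ 2 := by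
  have hq2 := hq.two_le
  have hS : 1 ≤ S := by
    rcases Nat.eq_zero_or_pos S with h0 | h0
    · rw [h0, pow_zero] at hbS; omega
    · exact h0
  set lam := Nat.log 2 q + 1 with hlam
  have hlam1 : 1 ≤ lam := by omega
  have hone : 1 ≤ lam ^ 2 * S ^ 2 := Nat.one_le_iff_ne_zero.2 (by positivity)
  have hyb : Nat.Coprime y b := sol_coprime_b hab hn he₁ hq.pos heq
  have ham2 : 2 ≤ a ^ m := by
    calc 2 ≤ a := ha
      _ ≤ a ^ m := Nat.le_self_pow (by omega) a
  have hsq : a ^ m * a ^ m ≤ b ^ n := by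
    rw [← pow_add, ← two_mul]; exact hle
  have h2am : 2 * a ^ m ≤ b ^ n := (Nat.mul_le_mul_right _ ham2).trans hsq
  -- the sign of `b ^ n`
  have he₂1 : e₂ = 1 := by
    rcases he₂ with h | h
    · exact h
    · exfalso
      rw [h] at heq
      have h1 : (0 : ℤ) ≤ (y : ℤ) ^ q := by positivity
      have h2 : e₁ * (a : ℤ) ^ m ≤ (a : ℤ) ^ m := by
        have : (0 : ℤ) ≤ (a : ℤ) ^ m := by positivity
        rcases he₁ with rfl | rfl <;> linarith
      have h3 : 2 * (a : ℤ) ^ m ≤ (b : ℤ) ^ n := by exact_mod_cast h2am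
      have h4 : (2 : ℤ) ≤ (a : ℤ) ^ m := by exact_mod_cast ham2
      linarith
  rw [he₂1, one_mul] at heq
  -- sizes
  have hamr : (2 : ℝ) ≤ (a : ℝ) ^ m := by exact_mod_cast ham2
  have hsqr : (a : ℝ) ^ m * (a : ℝ) ^ m ≤ (b : ℝ) ^ n := by exact_mod_cast hsq
  have heqr : (y : ℝ) ^ q = e₁ * (a : ℝ) ^ m + (b : ℝ) ^ n := by exact_mod_cast heq
  have he₁r : (e₁ : ℝ) = 1 ∨ (e₁ : ℝ) = -1 := by
    rcases he₁ with h | h
    · left; rw [h]; norm_num
    · right; rw [h]; norm_num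
  have hbn0 : (0 : ℝ) < (b : ℝ) ^ n := by positivity
  have hlb := log_ge hb
  have hly := log_ge hy
  have hn1 : (1 : ℝ) ≤ n := by exact_mod_cast hn
  have hlbn : 0.69 ≤ n * Real.log b := by nlinarith
  -- `q log y ≤ n log b + log 2`
  have hup : q * Real.log y ≤ n * Real.log b + Real.log 2 := by
    have h1 : (y : ℝ) ^ q ≤ 2 * (b : ℝ) ^ n := by
      rw [heqr]
      rcases he₁r with h | h <;> rw [h] <;> nlinarith
    have h2 := Real.log_le_log (by positivity) h1
    rw [Real.log_pow, Real.log_mul (by norm_num) (by positivity), Real.log_pow] at h2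
    linarith
  have hup2 : q * Real.log y ≤ 2.1 * (n * Real.log b) := by
    have : Real.log 2 ≤ 0.7 := by have := Real.log_two_lt_d9; linarith
    linarith
  -- distance of the logarithms
  have hdist : |q * Real.log y - n * Real.log b| ^ 2 ≤ 4 / (b : ℝ) ^ n := by
    have h1 : (q : ℝ) * Real.log y - n * Real.log b =
        Real.log (1 + e₁ * (a : ℝ) ^ m / (b : ℝ) ^ n) := by
      rw [← Real.log_pow, ← Real.log_pow, ← Real.log_div (by positivity) (by positivity), heqr]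
      congr 1
      field_simp
      ring
    rw [h1]
    set x := (a : ℝ) ^ m / (b : ℝ) ^ n with hx
    have hx0 : 0 < x := by positivity
    have hx1 : x ≤ 1 / (a : ℝ) ^ m := by
      rw [hx, div_le_div_iff₀ hbn0 (by positivity)]
      linarith
    have hx2 : x ≤ 1 / 2 := hx1.trans (one_div_le_one_div_of_le (by norm_num) hamr)
    have h3 : |Real.log (1 + e₁ * (a : ℝ) ^ m / (b : ℝ) ^ n)| ≤ 2 * x := by
      rcases he₁r with h | h
      · rw [h, one_mul, ← hx, abs_of_nonneg (Real.log_nonneg (by linarith))]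
        have := Real.log_le_sub_one_of_pos (by linarith : (0 : ℝ) < 1 + x)
        linarith
      · rw [h, neg_one_mul, neg_div, ← hx, ← sub_eq_add_neg]
        have h4 : Real.log (1 - x) ≤ 0 := Real.log_nonpos (by linarith) (by linarith)
        rw [abs_of_nonpos h4]
        have h5 := Real.one_sub_inv_le_log_of_pos (by linarith : (0 : ℝ) < 1 - x)
        have h6 : (1 - x)⁻¹ ≤ 1 + 2 * x := by
          rw [inv_le_iff_one_le_mul₀ (by linarith)]
          nlinarith
        linarith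
    calc |Real.log (1 + e₁ * (a : ℝ) ^ m / (b : ℝ) ^ n)| ^ 2 ≤ (2 * x) ^ 2 :=
          pow_le_pow_left₀ (abs_nonneg _) h3 2
      _ ≤ 4 / (b : ℝ) ^ n := by
          rw [hx, mul_pow, div_pow, ← mul_div_assoc, div_le_div_iff₀ (by positivity) hbn0]
          have e : (2 : ℝ) ^ 2 * ((a : ℝ) ^ m) ^ 2 * (b : ℝ) ^ n =
            4 * (((a : ℝ) ^ m * (a : ℝ) ^ m) * (b : ℝ) ^ n) := by ring
          rw [e, sq ((b : ℝ) ^ n)]
          exact mul_le_mul_of_nonneg_left (mul_le_mul_of_nonneg_right hsqr hbn0.le) (by norm_num)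
  have hSr : (1 : ℝ) ≤ S := by exact_mod_cast hS
  have hlbS : Real.log b ≤ S := by
    have h1 : Real.log b ≤ Real.log ((2 : ℝ) ^ S) :=
      Real.log_le_log (by positivity) (by exact_mod_cast hbS.le)
    rw [Real.log_pow] at h1
    have : Real.log 2 ≤ 1 := by have := Real.log_two_lt_d9; linarith
    nlinarith
  by_cases hdvd : q ∣ n
  · -- `q` divides `n`
    obtain ⟨t, ht⟩ := hdvd
    have ht1 : 1 ≤ t := by
      rcases Nat.eq_zero_or_pos t with h0 | h0
      · rw [h0, mul_zero] at ht; omega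
      · exact h0
    set x := b ^ t with hx
    have hx2 : 2 ≤ x := by
      calc 2 ≤ b := hb
        _ ≤ b ^ t := Nat.le_self_pow (by omega) b
    have hxn : b ^ n = x ^ q := by rw [hx, ← pow_mul, ht, mul_comm]
    have hyne : y ≠ x := by
      intro h1
      have h2 : b ∣ y := by rw [h1]; exact dvd_pow_self b (by omega)
      have := Nat.eq_one_of_dvd_coprimes hyb h2 dvd_rfl
      omega
    have hxam : x ^ (q - 1) ≤ a ^ m := by
      have heqx : (y : ℤ) ^ q = e₁ * (a : ℤ) ^ m + (x : ℤ) ^ q := by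
        rw [heq]; congr 1; exact_mod_cast hxn
      rcases lt_or_gt_of_ne hyne with h1 | h1
      · have h2 := pow_diff hq.one_lt.le h1
        have h3 : y ^ q ≤ x ^ q := Nat.pow_le_pow_left h1.le q
        have h4 : ((x ^ q - y ^ q : ℕ) : ℤ) ≤ (a : ℤ) ^ m := by
          push_cast [Nat.cast_sub h3]
          rw [heqx]
          have : (0 : ℤ) ≤ (a : ℤ) ^ m := by positivity
          rcases he₁ with rfl | rfl <;> linarith
        have h5 : x ^ q - y ^ q ≤ a ^ m := by exact_mod_cast h4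
        exact h2.trans h5
      · have h2 := pow_diff hq.one_lt.le h1
        have h3 : x ^ q ≤ y ^ q := Nat.pow_le_pow_left h1.le q
        have h4 : ((y ^ q - x ^ q : ℕ) : ℤ) ≤ (a : ℤ) ^ m := by
          push_cast [Nat.cast_sub h3]
          rw [heqx]
          have : (0 : ℤ) ≤ (a : ℤ) ^ m := by positivity
          rcases he₁ with rfl | rfl <;> linarith
        have h5 : y ^ q - x ^ q ≤ a ^ m := by exact_mod_cast h4
        exact (Nat.pow_le_pow_left h1.le (q - 1)).trans (h2.trans h5)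
    -- hence `q = 2`
    have h6 : x ^ (2 * (q - 1)) ≤ x ^ q := by
      calc x ^ (2 * (q - 1)) = x ^ (q - 1) * x ^ (q - 1) := by rw [two_mul, pow_add]
        _ ≤ a ^ m * a ^ m := Nat.mul_le_mul hxam hxam
        _ ≤ b ^ n := hsq
        _ = x ^ q := hxn
    have h7 : 2 * (q - 1) ≤ q := (Nat.pow_le_pow_iff_right (by omega)).1 h6
    calc q ≤ 2 := by omega
      _ < 2000000000 * (lam ^ 2 * S ^ 2) := by omega
      _ = _ := by ring
  · have hcop : Nat.Coprime n q := ((Nat.Prime.coprime_iff_not_dvd hq).2 hdvd).symm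
    obtain ⟨Y, hY⟩ : ∃ Y, Y = ⌈Real.log b⌉₊ := ⟨_, rfl⟩
    obtain ⟨Z, hZ⟩ : ∃ Z, Z = ⌈Real.log y⌉₊ := ⟨_, rfl⟩
    have ceil3 : ∀ x : ℝ, 0.69 ≤ x → 1 ≤ ⌈x⌉₊ ∧ x ≤ ⌈x⌉₊ ∧ (⌈x⌉₊ : ℝ) ≤ 3 * x := by
      intro x hx
      refine ⟨Nat.one_le_ceil_iff.2 (by linarith), Nat.le_ceil x, ?_⟩
      have := Nat.ceil_lt_add_one (by linarith : (0 : ℝ) ≤ x)
      linarith
    obtain ⟨hY1, hY2, hY3⟩ := ceil3 _ hlb
    obtain ⟨hZ1, hZ2, hZ3⟩ := ceil3 _ hly
    rw [← hY] at hY1 hY2 hY3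
    rw [← hZ] at hZ1 hZ2 hZ3
    obtain ⟨L, hL⟩ : ∃ L, L = 32 * lam := ⟨_, rfl⟩
    have hL1 : 1 ≤ L := by omega
    have hlogq : Real.log q ≤ lam := by
      have h1 : q < 2 ^ lam := Nat.lt_pow_succ_log_self (by norm_num) q
      have h2 : Real.log q ≤ Real.log ((2 : ℝ) ^ lam) :=
        Real.log_le_log (by exact_mod_cast hq.pos) (by exact_mod_cast h1.le)
      rw [Real.log_pow] at h2
      have h3 : Real.log 2 ≤ 1 := by have := Real.log_two_lt_d9; linarith
      have h4 : (1 : ℝ) ≤ lam := by exact_mod_cast hlam1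
      nlinarith
    have hlamr : (1 : ℝ) ≤ lam := by exact_mod_cast hlam1
    have hLr : (L : ℝ) = 32 * lam := by rw [hL]; push_cast; ring
    have hLb : 8 * (3 + Real.log q) ≤ (L : ℝ) := by rw [hLr]; linarith
    have hq0 : (0 : ℝ) < q := by exact_mod_cast hq.pos
    set u := (n : ℝ) * Real.log b with hu
    have hZq : (Z : ℝ) * q ≤ 6.3 * u := by nlinarith
    by_cases hbig : 145 * Z * L ≤ n
    · have hlow := Pool.Agent.H374R2.W.QL.lfl (A := b) (U := y) (a := n) (b := q) (Y := Y) (Z := Z)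
        (L := L) hb hy hn hq2 hcop hY1 hZ1 hL1 hY2 hZ2 hY3 hZ3 hbig hLb
      set E := 20880 * (Y : ℝ) * Z * (L : ℝ) ^ 2 with hE
      have h1 : Real.exp (-E) ^ 2 ≤ 4 / (b : ℝ) ^ n :=
        (pow_le_pow_left₀ (Real.exp_pos _).le hlow.le 2).trans hdist
      have h2 : Real.log (Real.exp (-E) ^ 2) ≤ Real.log (4 / (b : ℝ) ^ n) :=
        Real.log_le_log (by positivity) h1
      rw [Real.log_pow, Real.log_exp, Real.log_div (by norm_num) (by positivity), Real.log_pow,
        ← hu] at h2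
      have h4 : Real.log 4 ≤ 1.4 := by
        have : (4 : ℝ) = 2 ^ 2 := by norm_num
        rw [this, Real.log_pow]
        have := Real.log_two_lt_d9
        push_cast
        linarith
      -- `u ≤ 2 E + 1.4`
      have h5 : u ≤ 2 * E + 1.4 := by push_cast at h2; linarith
      have hn145 : (145 : ℝ) ≤ n := by
        have : 145 ≤ n := by
          calc 145 = 145 * 1 * 1 := by norm_num
            _ ≤ 145 * Z * L := Nat.mul_le_mul (Nat.mul_le_mul_left _ hZ1) hL1
            _ ≤ n := hbig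
        exact_mod_cast this
      have h6 : (100 : ℝ) ≤ u := by rw [hu]; nlinarith
      have h7 : u ≤ 2.1 * E := by linarith
      -- `q u ≤ 2.1 E q ≤ ...`
      have hEq : E * q ≤ 20880 * (3 * S) * (6.3 * u) * (32 * lam) ^ 2 := by
        have e : E * q = 20880 * (Y : ℝ) * (Z * q) * (L : ℝ) ^ 2 := by rw [hE]; ring
        rw [e, hLr]
        have hY4 : (Y : ℝ) ≤ 3 * S := by linarith
        have hu0 : 0 ≤ u := by linarith
        gcongr
      have h8 : u * q ≤ u * (2.1 * (20880 * (3 * S) * 6.3 * (32 * lam) ^ 2)) := by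
        calc u * q ≤ 2.1 * E * q := mul_le_mul_of_nonneg_right h7 hq0.le
          _ = 2.1 * (E * q) := by ring
          _ ≤ 2.1 * (20880 * (3 * S) * (6.3 * u) * (32 * lam) ^ 2) :=
            mul_le_mul_of_nonneg_left hEq (by norm_num)
          _ = _ := by ring
      have h9 : (q : ℝ) ≤ 2.1 * (20880 * (3 * S) * 6.3 * (32 * lam) ^ 2) :=
        le_of_mul_le_mul_left h8 (by linarith)
      have h10 : (q : ℝ) < 2000000000 * (lam : ℝ) ^ 2 * (S : ℝ) ^ 2 := by
        have e : 2.1 * (20880 * (3 * (S : ℝ)) * 6.3 * (32 * (lam : ℝ)) ^ 2)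
          = 2.1 * 20880 * 3 * 6.3 * 1024 * ((lam : ℝ) ^ 2 * S) := by ring
        rw [e] at h9
        have h11 : (0 : ℝ) < (lam : ℝ) ^ 2 := by positivity
        have h12 : (S : ℝ) ≤ (S : ℝ) ^ 2 := by nlinarith
        have h13 : (lam : ℝ) ^ 2 * S ≤ (lam : ℝ) ^ 2 * (S : ℝ) ^ 2 :=
          mul_le_mul_of_nonneg_left h12 h11.le
        have h14 : (0 : ℝ) < (lam : ℝ) ^ 2 * (S : ℝ) ^ 2 := by positivity
        linarith
      exact_mod_cast h10
    · push Not at hbig
      have h1 : (n : ℝ) < 145 * Z * L := by exact_mod_cast hbig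
      have h2 : (n : ℝ) * q < n * (145 * 32 * 6.3 * (lam * S)) := by
        calc (n : ℝ) * q < 145 * Z * L * q := mul_lt_mul_of_pos_right h1 hq0
          _ = 145 * L * (Z * q) := by ring
          _ ≤ 145 * L * (6.3 * u) := mul_le_mul_of_nonneg_left hZq (by positivity)
          _ = n * (145 * 32 * 6.3 * (lam * Real.log b)) := by rw [hLr, hu]; ring
          _ ≤ n * (145 * 32 * 6.3 * (lam * S)) := by
            have : (0 : ℝ) ≤ lam := by positivity
            gcongr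
      have h3 : (q : ℝ) < 145 * 32 * 6.3 * (lam * S) :=
        lt_of_mul_lt_mul_left h2 (by positivity)
      have h10 : (q : ℝ) < 2000000000 * (lam : ℝ) ^ 2 * (S : ℝ) ^ 2 := by
        have h4 : (lam : ℝ) * S ≤ (lam : ℝ) ^ 2 * (S : ℝ) ^ 2 := by
          have : (lam : ℝ) ≤ (lam : ℝ) ^ 2 := by nlinarith
          have : (S : ℝ) ≤ (S : ℝ) ^ 2 := by nlinarith
          gcongr
        have h5 : (1 : ℝ) ≤ lam * S := one_le_mul_of_one_le_of_one_le hlamr hSr
        nlinarith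
      exact_mod_cast h10

end Pool.Agent.Y411.PB
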