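import Mathlib
import Pool.Agent.Y411.PB.Arch

/-!
Bound for the prime exponent `q` in `y ^ q = e₁ a ^ m + e₂ b ^ n`.
-/

set_option autoImplicit false

namespace Pool.Agent.Y411.PB

theorem pow_four_le (l : ℕ) : l ^ 4 ≤ 64 * 2 ^ l := by
  rcases Nat.lt_or_ge l 6 with h | h
  · interval_cases l <;> norm_num
  · induction l, h using Nat.le_induction with
    | base => norm_num
    | succ n hn ih =>
      have h1 : (n + 1) ^ 4 ≤ 2 * n ^ 4 := by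
        have h2 : 6 * (n + 1) ≤ 7 * n := by omega
        have h3 : (6 * (n + 1)) ^ 4 ≤ (7 * n) ^ 4 := Nat.pow_le_pow_left h2 4
        rw [mul_pow, mul_pow] at h3
        norm_num at h3
        omega
      calc (n + 1) ^ 4 ≤ 2 * n ^ 4 := h1
        _ ≤ 2 * (64 * 2 ^ n) := Nat.mul_le_mul_left _ ih
        _ = 64 * 2 ^ (n + 1) := by rw [pow_succ]; ring

theorem from_lam {q S c : ℕ} (hq : 1 ≤ q) (h : q < c * (Nat.log 2 q + 1) ^ 2 * S ^ 2) :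
    q ≤ 128 * c ^ 2 * S ^ 4 := by
  have h1 : (Nat.log 2 q + 1) ^ 4 ≤ 128 * q := by
    calc (Nat.log 2 q + 1) ^ 4 ≤ 64 * 2 ^ (Nat.log 2 q + 1) := pow_four_le _
      _ = 128 * 2 ^ Nat.log 2 q := by rw [pow_succ]; ring
      _ ≤ 128 * q := Nat.mul_le_mul_left _ (Nat.pow_log_le_self 2 (by omega))
  have h2 : q * q ≤ q * (128 * c ^ 2 * S ^ 4) := by
    calc q * q ≤ (c * (Nat.log 2 q + 1) ^ 2 * S ^ 2) * (c * (Nat.log 2 q + 1) ^ 2 * S ^ 2) :=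
          Nat.mul_le_mul h.le h.le
      _ = c ^ 2 * (Nat.log 2 q + 1) ^ 4 * S ^ 4 := by ring
      _ ≤ c ^ 2 * (128 * q) * S ^ 4 := Nat.mul_le_mul_right _ (Nat.mul_le_mul_left _ h1)
      _ = q * (128 * c ^ 2 * S ^ 4) := by ring
  exact Nat.le_of_mul_le_mul_left h2 hq

/-- one of the bases is even -/
theorem kb_even {a b m n q S y : ℕ} {e₁ e₂ : ℤ} (hq : q.Prime) (ha : 2 ≤ a)
    (hb : 2 ≤ b) (hab : Nat.Coprime a b) (ha2 : 2 ∣ a) (haS : a < 2 ^ S) (hbS : b < 2 ^ S)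
    (hm : 1 ≤ m) (hn : 1 ≤ n) (he₁ : e₁ = 1 ∨ e₁ = -1) (he₂ : e₂ = 1 ∨ e₂ = -1) (hy : 2 ≤ y)
    (heq : (y : ℤ) ^ q = e₁ * (a : ℤ) ^ m + e₂ * (b : ℤ) ^ n) :
    q ≤ 128 * 2000000000 ^ 2 * S ^ 4 := by
  apply from_lam hq.one_lt.le
  rcases le_total (b ^ n) (a ^ (2 * m)) with h | h
  · have h1 := kb_pad hq ha hb hab ha2 haS hbS hm hn he₁ he₂ hy heq h
    refine h1.trans_le ?_
    exact Nat.mul_le_mul_right _ (Nat.mul_le_mul_right _ (by norm_num))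
  · exact kb_arch hq ha hb hab hbS hm hn he₁ he₂ hy heq h

/-- **bound for the prime exponent** -/
theorem kbound : ∃ C κ : ℕ, 1 ≤ C ∧ ∀ (a b m n q S y : ℕ) (e₁ e₂ : ℤ), 2 ≤ S → q.Prime → 2 ≤ a →
    2 ≤ b → Nat.Coprime a b → a < 2 ^ S → b < 2 ^ S → m ≤ 2 ^ S → n ≤ 2 ^ S →
    1 ≤ m → 1 ≤ n → (e₁ = 1 ∨ e₁ = -1) → (e₂ = 1 ∨ e₂ = -1) → 2 ≤ y →
    (y : ℤ) ^ q = e₁ * (a : ℤ) ^ m + e₂ * (b : ℤ) ^ n → q ≤ C * S ^ κ := by
  obtain ⟨C, κ, h⟩ := kb_odd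
  refine ⟨C + 128 * 2000000000 ^ 2, κ + 4, by norm_num, ?_⟩
  intro a b m n q S y e₁ e₂ hS hq ha hb hab haS hbS hmS hnS hm hn he₁ he₂ hy heq
  have hS1 : 1 ≤ S := by omega
  have e1 : S ^ κ ≤ S ^ (κ + 4) := Nat.pow_le_pow_right hS1 (by omega)
  have e2 : S ^ 4 ≤ S ^ (κ + 4) := Nat.pow_le_pow_right hS1 (by omega)
  by_cases ha2 : 2 ∣ a
  · refine (kb_even hq ha hb hab ha2 haS hbS hm hn he₁ he₂ hy heq).trans ?_
    exact Nat.mul_le_mul (by omega) e2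
  · by_cases hb2 : 2 ∣ b
    · refine (kb_even hq hb ha hab.symm hb2 hbS haS hn hm he₂ he₁ hy
        (by rw [heq, add_comm])).trans ?_
      exact Nat.mul_le_mul (by omega) e2
    · refine (h a b m n q S y e₁ e₂ hS ha hb hab ha2 hb2 haS.le hbS.le hmS hnS hm he₁ he₂
        hq.one_lt.le heq).trans ?_
      exact Nat.mul_le_mul (by omega) e1

end Pool.Agent.Y411.PB
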