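import Mathlib
import Pool.Agent.Y411.PB.KB
import Pool.Agent.Y411.PB.Cover

/-!
Two coprime bases: the number of pairs of exponents for which the sum or difference of the powers is
a perfect power.
-/

set_option autoImplicit false

namespace Pool.Agent.Y411.PB

open Finset

/-- solutions for one prime exponent and one choice of signs -/
def Sol (a b N q : ℕ) (e₁ e₂ : ℤ) (x : ℕ × ℕ) : Prop :=
  1 ≤ x.1 ∧ x.1 ≤ N ∧ 1 ≤ x.2 ∧ x.2 ≤ N ∧
    ∃ y : ℕ, 0 < y ∧ (y : ℤ) ^ q = e₁ * (a : ℤ) ^ x.1 + e₂ * (b : ℤ) ^ x.2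

theorem sol_half {a b N q : ℕ} {e₁ e₂ : ℤ} (ha : 2 ≤ a) (hb : 2 ≤ b) (hab : Nat.Coprime a b)
    (hq : q.Prime) (he₁ : e₁ = 1 ∨ e₁ = -1) (he₂ : e₂ = 1 ∨ e₂ = -1) {G : Finset (ℕ × ℕ)}
    (hG : ∀ x ∈ G, Sol a b N q e₁ e₂ x ∧ b ^ x.2 ≤ a ^ x.1) :
    G.card ≤ 4000 * q ^ 2 * 9 ^ a.primeFactors.card * (Nat.log 2 N + 1) := by
  have hex : ∀ x ∈ G, ∃ y : ℕ, 0 < y ∧ (y : ℤ) ^ q = e₁ * (a : ℤ) ^ x.1 + e₂ * (b : ℤ) ^ x.2 :=
    fun x hx => (hG x hx).1.2.2.2.2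
  choose! y hy using hex
  apply count_half ha hb hab hq he₁ he₂ (y := y)
  intro x hx
  obtain ⟨⟨h1, h2, h3, -, -⟩, h5⟩ := hG x hx
  exact ⟨(hy x hx).1, (hy x hx).2, h1, h3, h2, h5⟩

theorem sol_count {a b N q : ℕ} {e₁ e₂ : ℤ} (ha : 2 ≤ a) (hb : 2 ≤ b) (hab : Nat.Coprime a b)
    (hq : q.Prime) (he₁ : e₁ = 1 ∨ e₁ = -1) (he₂ : e₂ = 1 ∨ e₂ = -1) {G : Finset (ℕ × ℕ)}
    (hG : ∀ x ∈ G, Sol a b N q e₁ e₂ x) :
    G.card ≤ 8000 * q ^ 2 * 9 ^ max a.primeFactors.card b.primeFactors.card *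
      (Nat.log 2 N + 1) := by
  classical
  rw [← card_filter_add_card_filter_not (s := G) (fun x => b ^ x.2 ≤ a ^ x.1)]
  have h1 : (G.filter fun x => b ^ x.2 ≤ a ^ x.1).card ≤
      4000 * q ^ 2 * 9 ^ a.primeFactors.card * (Nat.log 2 N + 1) := by
    apply sol_half ha hb hab hq he₁ he₂
    intro x hx
    obtain ⟨hx1, hx2⟩ := mem_filter.1 hx
    exact ⟨hG x hx1, hx2⟩
  have h2 : (G.filter fun x => ¬ b ^ x.2 ≤ a ^ x.1).card ≤
      4000 * q ^ 2 * 9 ^ b.primeFactors.card * (Nat.log 2 N + 1) := by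
    rw [← card_image_of_injective (G.filter fun x => ¬ b ^ x.2 ≤ a ^ x.1) Prod.swap_injective]
    apply sol_half hb ha hab.symm hq he₂ he₁
    intro x hx
    obtain ⟨z, hz, rfl⟩ := mem_image.1 hx
    obtain ⟨hx1, hx2⟩ := mem_filter.1 hz
    push Not at hx2
    obtain ⟨g1, g2, g3, g4, y, g5, g6⟩ := hG z hx1
    refine ⟨⟨g3, g4, g1, g2, y, g5, ?_⟩, hx2.le⟩
    rw [g6, add_comm]
    rfl
  have h3 : 9 ^ a.primeFactors.card ≤ 9 ^ max a.primeFactors.card b.primeFactors.card :=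
    Nat.pow_le_pow_right (by norm_num) (le_max_left _ _)
  have h4 : 9 ^ b.primeFactors.card ≤ 9 ^ max a.primeFactors.card b.primeFactors.card :=
    Nat.pow_le_pow_right (by norm_num) (le_max_right _ _)
  calc _ ≤ 4000 * q ^ 2 * 9 ^ a.primeFactors.card * (Nat.log 2 N + 1) +
        4000 * q ^ 2 * 9 ^ b.primeFactors.card * (Nat.log 2 N + 1) := add_le_add h1 h2
    _ ≤ 4000 * q ^ 2 * 9 ^ max a.primeFactors.card b.primeFactors.card * (Nat.log 2 N + 1) +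
        4000 * q ^ 2 * 9 ^ max a.primeFactors.card b.primeFactors.card * (Nat.log 2 N + 1) :=
        add_le_add (Nat.mul_le_mul_right _ (Nat.mul_le_mul_left _ h3))
          (Nat.mul_le_mul_right _ (Nat.mul_le_mul_left _ h4))
    _ = _ := by ring

/-- the exceptional pairs of exponents -/
def Exc (a b N : ℕ) : Set (ℕ × ℕ) :=
  {p | (1 ≤ p.1 ∧ p.1 ≤ N) ∧ (1 ≤ p.2 ∧ p.2 ≤ N) ∧ ∃ c k : ℕ, 1 ≤ c ∧ 2 ≤ k ∧
    (a ^ p.1 + b ^ p.2 = c ^ k ∨ a ^ p.1 + c ^ k = b ^ p.2 ∨ b ^ p.2 + c ^ k = a ^ p.1)}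

theorem exc_finite (a b N : ℕ) : (Exc a b N).Finite := by
  refine ((range (N + 1) ×ˢ range (N + 1)).finite_toSet).subset ?_
  rintro ⟨m, n⟩ ⟨h1, h2, -⟩
  simp only [coe_product, coe_range, Set.mem_prod, Set.mem_Iio] at *
  omega

theorem exists_prime_root {c k : ℕ} (hk : 2 ≤ k) : ∃ q y : ℕ, q.Prime ∧ c ^ k = y ^ q ∧
    (1 ≤ c → 1 ≤ y) ∧ (y = 1 → c = 1) := by
  obtain ⟨q, hq, r, hr⟩ := Nat.exists_prime_and_dvd (by omega : k ≠ 1)
  have hr0 : r ≠ 0 := by rintro rfl; omega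
  refine ⟨q, c ^ r, hq, ?_, fun h => Nat.one_le_pow _ _ h, fun h => ?_⟩
  · rw [← pow_mul, hr, mul_comm]
  · exact (Nat.pow_eq_one.1 h).resolve_right hr0

/-- every exceptional pair is a solution for a small prime exponent -/
theorem exc_sol {C κ : ℕ} (hC : ∀ (a b m n q S y : ℕ) (e₁ e₂ : ℤ), 2 ≤ S → q.Prime → 2 ≤ a →
    2 ≤ b → Nat.Coprime a b → a < 2 ^ S → b < 2 ^ S → m ≤ 2 ^ S → n ≤ 2 ^ S →
    1 ≤ m → 1 ≤ n → (e₁ = 1 ∨ e₁ = -1) → (e₂ = 1 ∨ e₂ = -1) → 2 ≤ y →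
    (y : ℤ) ^ q = e₁ * (a : ℤ) ^ m + e₂ * (b : ℤ) ^ n → q ≤ C * S ^ κ)
    {a b N S : ℕ} (ha : 2 ≤ a) (hb : 2 ≤ b) (hab : Nat.Coprime a b) (hS : 2 ≤ S) (haS : a < 2 ^ S)
    (hbS : b < 2 ^ S) (hNS : N ≤ 2 ^ S) {x : ℕ × ℕ} (hx : x ∈ Exc a b N) :
    ∃ q : ℕ, q.Prime ∧ q ≤ C * S ^ κ + 2 ∧ ∃ s : ℤ × ℤ,
      s ∈ ({(1, 1), (-1, 1), (1, -1)} : Finset (ℤ × ℤ)) ∧ Sol a b N q s.1 s.2 x := by
  obtain ⟨⟨h1, h2⟩, ⟨h3, h4⟩, c, k, hc, hk, heq⟩ := hx
  obtain ⟨q, y, hq, hcy, hy1, hyc⟩ := exists_prime_root (c := c) hk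
  -- the signs
  obtain ⟨s, hs, hse⟩ : ∃ s : ℤ × ℤ, s ∈ ({(1, 1), (-1, 1), (1, -1)} : Finset (ℤ × ℤ)) ∧
      (c : ℤ) ^ k = s.1 * (a : ℤ) ^ x.1 + s.2 * (b : ℤ) ^ x.2 := by
    rcases heq with h | h | h
    · refine ⟨(1, 1), by simp, ?_⟩
      have : (a : ℤ) ^ x.1 + (b : ℤ) ^ x.2 = (c : ℤ) ^ k := by exact_mod_cast h
      simp only; linarith
    · refine ⟨(-1, 1), by simp, ?_⟩
      have : (a : ℤ) ^ x.1 + (c : ℤ) ^ k = (b : ℤ) ^ x.2 := by exact_mod_cast h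
      simp only; linarith
    · refine ⟨(1, -1), by simp, ?_⟩
      have : (b : ℤ) ^ x.2 + (c : ℤ) ^ k = (a : ℤ) ^ x.1 := by exact_mod_cast h
      simp only; linarith
  have hs12 : (s.1 = 1 ∨ s.1 = -1) ∧ (s.2 = 1 ∨ s.2 = -1) := by
    simp only [mem_insert, mem_singleton] at hs
    rcases hs with rfl | rfl | rfl <;> simp
  rcases Nat.lt_or_ge y 2 with hy2 | hy2
  · -- the perfect power is `1`
    have hy : y = 1 := by have := hy1 hc; omega
    have hc1 := hyc hy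
    refine ⟨2, Nat.prime_two, by omega, s, hs, h1, h2, h3, h4, 1, one_pos, ?_⟩
    rw [← hse, hc1]; simp
  · have hyq : (y : ℤ) ^ q = s.1 * (a : ℤ) ^ x.1 + s.2 * (b : ℤ) ^ x.2 := by
      rw [← hse]; exact_mod_cast hcy.symm
    have hle := hC a b x.1 x.2 q S y s.1 s.2 hS hq ha hb hab haS hbS (h2.trans hNS) (h4.trans hNS)
      h1 h3 hs12.1 hs12.2 hy2 hyq
    exact ⟨q, hq, by omega, s, hs, h1, h2, h3, h4, y, by omega, hyq⟩

/-- **two coprime bases** -/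
theorem main : ∃ C κ : ℕ, ∀ a b N : ℕ, 2 ≤ a → 2 ≤ b → Nat.Coprime a b → 1 ≤ N →
    ((Exc a b N).ncard : ℝ) ≤ C * 9 ^ max a.primeFactors.card b.primeFactors.card *
      Real.log (a * b * N) ^ κ := by
  classical
  obtain ⟨C, κ, hC1, hC⟩ := kbound
  refine ⟨24000 * (C + 2) ^ 3 * 3 ^ (3 * κ + 1), 3 * κ + 1, ?_⟩
  intro a b N ha hb hab hN
  set W := 9 ^ max a.primeFactors.card b.primeFactors.card with hW
  obtain ⟨S, hS⟩ : ∃ S, S = Nat.log 2 a + Nat.log 2 b + Nat.log 2 N + 2 := ⟨_, rfl⟩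
  have hla : a < 2 ^ (Nat.log 2 a + 1) := Nat.lt_pow_succ_log_self (by norm_num) a
  have hlb : b < 2 ^ (Nat.log 2 b + 1) := Nat.lt_pow_succ_log_self (by norm_num) b
  have hlN : N < 2 ^ (Nat.log 2 N + 1) := Nat.lt_pow_succ_log_self (by norm_num) N
  have haS : a < 2 ^ S := hla.trans_le (Nat.pow_le_pow_right (by norm_num) (by omega))
  have hbS : b < 2 ^ S := hlb.trans_le (Nat.pow_le_pow_right (by norm_num) (by omega))
  have hNS : N ≤ 2 ^ S := (hlN.trans_le (Nat.pow_le_pow_right (by norm_num) (by omega))).le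
  have hS2 : 2 ≤ S := by omega
  set K := C * S ^ κ + 2 with hK
  set E := (exc_finite a b N).toFinset with hE
  have hEmem : ∀ x, x ∈ E ↔ x ∈ Exc a b N := fun x => by rw [hE, Set.Finite.mem_toFinset]
  -- count
  have hcount : E.card ≤ 24000 * K ^ 3 * W * S := by
    set P := ((range (K + 1)).filter Nat.Prime) ×ˢ
      ({(1, 1), (-1, 1), (1, -1)} : Finset (ℤ × ℤ)) with hP
    have hsub : E ⊆ P.biUnion fun t => E.filter fun x => Sol a b N t.1 t.2.1 t.2.2 x := by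
      intro x hx
      obtain ⟨q, hq, hqK, s, hs, hsol⟩ := exc_sol hC ha hb hab hS2 haS hbS hNS ((hEmem x).1 hx)
      rw [mem_biUnion]
      refine ⟨(q, s), ?_, mem_filter.2 ⟨hx, hsol⟩⟩
      rw [hP, mem_product, mem_filter, mem_range]
      exact ⟨⟨by omega, hq⟩, hs⟩
    have h1 : E.card ≤ ∑ t ∈ P, (8000 * K ^ 2 * W * S) := by
      refine (card_le_card hsub).trans (card_biUnion_le.trans (sum_le_sum ?_))
      rintro ⟨q, s⟩ ht
      rw [hP, mem_product, mem_filter, mem_range] at ht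
      obtain ⟨⟨hqK, hq⟩, hs⟩ := ht
      simp only at hqK hq hs ⊢
      have hs12 : (s.1 = 1 ∨ s.1 = -1) ∧ (s.2 = 1 ∨ s.2 = -1) := by
        simp only [mem_insert, mem_singleton] at hs
        rcases hs with rfl | rfl | rfl <;> simp
      have h2 := sol_count ha hb hab hq hs12.1 hs12.2
        (G := E.filter fun x => Sol a b N q s.1 s.2 x) (fun x hx => (mem_filter.1 hx).2)
      refine h2.trans ?_
      have h3 : q ^ 2 ≤ K ^ 2 := Nat.pow_le_pow_left (by omega) 2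
      exact Nat.mul_le_mul (Nat.mul_le_mul_right _ (Nat.mul_le_mul_left _ h3)) (by omega)
    have h4 : P.card ≤ 3 * K := by
      rw [hP, card_product]
      have h5 : ((range (K + 1)).filter Nat.Prime).card ≤ K := by
        have h6 : (range (K + 1)).filter Nat.Prime ⊆ Icc 1 K := by
          intro p hp
          obtain ⟨hp1, hp2⟩ := mem_filter.1 hp
          rw [mem_range] at hp1
          exact mem_Icc.2 ⟨hp2.one_lt.le, by omega⟩
        have := card_le_card h6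
        simpa using this
      have h6 : ({(1, 1), (-1, 1), (1, -1)} : Finset (ℤ × ℤ)).card ≤ 3 := card_le_three
      calc _ ≤ K * 3 := Nat.mul_le_mul h5 h6
        _ = 3 * K := mul_comm _ _
    calc E.card ≤ ∑ t ∈ P, (8000 * K ^ 2 * W * S) := h1
      _ = P.card * (8000 * K ^ 2 * W * S) := by rw [sum_const, smul_eq_mul]
      _ ≤ 3 * K * (8000 * K ^ 2 * W * S) := Nat.mul_le_mul_right _ h4
      _ = 24000 * K ^ 3 * W * S := by ring
  have hcount2 : E.card ≤ 24000 * (C + 2) ^ 3 * W * S ^ (3 * κ + 1) := by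
    have h1 : K ≤ (C + 2) * S ^ κ := by
      have : 1 ≤ S ^ κ := Nat.one_le_pow _ _ (by omega)
      rw [hK, add_mul]; omega
    calc E.card ≤ 24000 * K ^ 3 * W * S := hcount
      _ ≤ 24000 * ((C + 2) * S ^ κ) ^ 3 * W * S :=
        Nat.mul_le_mul_right _ (Nat.mul_le_mul_right _ (Nat.mul_le_mul_left _
          (Nat.pow_le_pow_left h1 3)))
      _ = 24000 * (C + 2) ^ 3 * W * S ^ (3 * κ + 1) := by
        rw [pow_succ S (3 * κ), mul_comm 3 κ, pow_mul S κ 3, mul_pow]; ring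
  -- comparison with the logarithm
  have hL : (S : ℝ) ≤ 3 * Real.log (a * b * N) := by
    have ha0 : a ≠ 0 := by omega
    have hb0 : b ≠ 0 := by omega
    have hN0 : N ≠ 0 := by omega
    have l1 : 2 ^ Nat.log 2 a ≤ a := Nat.pow_log_le_self 2 ha0
    have l2 : 2 ^ Nat.log 2 b ≤ b := Nat.pow_log_le_self 2 hb0
    have l3 : 2 ^ Nat.log 2 N ≤ N := Nat.pow_log_le_self 2 hN0
    have h1 : 2 ^ (Nat.log 2 a + Nat.log 2 b + Nat.log 2 N) ≤ a * b * N := by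
      rw [pow_add, pow_add]
      exact Nat.mul_le_mul (Nat.mul_le_mul l1 l2) l3
    have h2 : ((Nat.log 2 a + Nat.log 2 b + Nat.log 2 N : ℕ) : ℝ) * Real.log 2 ≤
        Real.log (a * b * N) := by
      rw [← Real.log_pow]
      exact Real.log_le_log (by positivity) (by exact_mod_cast h1)
    have h3 : Real.log 4 ≤ Real.log (a * b * N) := by
      apply Real.log_le_log (by norm_num)
      have : 4 ≤ a * b * N := by
        calc 4 = 2 * 2 * 1 := by norm_num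
          _ ≤ a * b * N := Nat.mul_le_mul (Nat.mul_le_mul ha hb) hN
      exact_mod_cast this
    have h4 : Real.log 4 = 2 * Real.log 2 := by
      have : (4 : ℝ) = 2 ^ 2 := by norm_num
      rw [this, Real.log_pow]; norm_num
    have h5 := log_two_ge
    have hSr : (S : ℝ) = ((Nat.log 2 a + Nat.log 2 b + Nat.log 2 N : ℕ) : ℝ) + 2 := by
      rw [hS]; push_cast; ring
    set X := ((Nat.log 2 a + Nat.log 2 b + Nat.log 2 N : ℕ) : ℝ) with hX
    have hX0 : 0 ≤ X := Nat.cast_nonneg _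
    rw [hSr]
    have h6 : X * 0.69 ≤ X * Real.log 2 := mul_le_mul_of_nonneg_left h5 hX0
    linarith
  have hncard : (Exc a b N).ncard = E.card := Set.ncard_eq_toFinset_card _ (exc_finite a b N)
  rw [hncard]
  have hc3 : (E.card : ℝ) ≤ ((24000 * (C + 2) ^ 3 * W * S ^ (3 * κ + 1) : ℕ) : ℝ) := by
    exact_mod_cast hcount2
  refine hc3.trans ?_
  have hS0 : (0 : ℝ) ≤ S := Nat.cast_nonneg _
  have hpow : (S : ℝ) ^ (3 * κ + 1) ≤ 3 ^ (3 * κ + 1) * Real.log (a * b * N) ^ (3 * κ + 1) := by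
    rw [← mul_pow]
    exact pow_le_pow_left₀ hS0 hL _
  push_cast
  rw [hW]
  push_cast
  calc (24000 * ((C : ℝ) + 2) ^ 3 * 9 ^ max a.primeFactors.card b.primeFactors.card) *
        (S : ℝ) ^ (3 * κ + 1)
      ≤ (24000 * ((C : ℝ) + 2) ^ 3 * 9 ^ max a.primeFactors.card b.primeFactors.card) *
        (3 ^ (3 * κ + 1) * Real.log (a * b * N) ^ (3 * κ + 1)) :=
        mul_le_mul_of_nonneg_left hpow (by positivity)
    _ = _ := by ring

end Pool.Agent.Y411.PB
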